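import Pool.Agent.Q77.KU.Stm

/-!
# The homogeneous Kuramoto model: assembly
-/

set_option autoImplicit false

namespace Pool.Agent.Q77.KU

open Filter Topology Set MeasureTheory

theorem sol_shift {V : Type} [Fintype V] {a : V → V → ℝ} {x : ℝ → V → ℝ} (hx : Sol a x) {T : ℝ}
    (hT : 0 ≤ T) : Sol a (fun t => x (T + t)) := by
  intro t ht i
  have h1 := hx (T + t) (by linarith) i
  have h2 : HasDerivWithinAt (fun s : ℝ => T + s) 1 (Ici 0) t :=
    ((hasDerivAt_id t).const_add T).hasDerivWithinAt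
  have h3 := HasDerivWithinAt.scomp t h1 h2 (fun s (hs : s ∈ Ici (0 : ℝ)) => by
    have hs' : (0 : ℝ) ≤ s := hs
    have : (0 : ℝ) ≤ T + s := by linarith
    exact this)
  rw [one_smul] at h3
  exact h3

/-- for almost every initial value all solutions synchronize -/
theorem gs (h1 : S_CONV) (h2 : S_GROW) (h3 : S_NULL) (h4 : S_BACK) {V : Type} [Fintype V]
    (a : V → V → ℝ) (ha : ∀ i j, a i j = a j i) (C : ℝ)
    (hKL : ∀ x : V → ℝ, ∃ k : ℤ, |H a x - k / 2| ^ 3 ≤ C * G2 a x ^ 2)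
    (hSTR : ∀ p : V → ℝ, F a p = 0 → (∃ u v, Real.cos (p u - p v) ≠ 1) → ∃ w, HH a p w < 0) :
    ∀ᵐ z : V → ℝ, ∀ x : ℝ → V → ℝ, Sol a x → x 0 = z →
      ∀ i j, Tendsto (fun t => ((x t i - x t j : ℝ) : Real.Angle)) atTop (𝓝 0) := by
  classical
  set B : Set (V → ℝ) := {p | F a p = 0 ∧ ∃ w, HH a p w < 0} with hB
  have hr : ∀ p : B, ∃ r > 0, ∃ Q : (V → ℝ) → ℝ, Continuous Q ∧
      (∀ (s : ℝ) (v : V → ℝ), Q (s • v) = s ^ 2 * Q v) ∧ (∃ w, 0 < Q w) ∧
      ∀ x y : ℝ → V → ℝ, Sol a x → Sol a y → (∀ t, 0 ≤ t → dist (x t) p ≤ r) →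
      (∀ t, 0 ≤ t → dist (y t) p ≤ r) → Q (x 0 - y 0) ≤ 0 := by
    rintro ⟨p, hp, w, hw⟩
    obtain ⟨r, hr, Q, hQ1, hQ2, hQ3, hQ4⟩ := h2 V a ha p w hp hw
    exact ⟨r, hr, Q, hQ1, hQ2, ⟨w, hQ3⟩, hQ4⟩
  choose r hr0 Q hQ1 hQ2 hQ3 hQ4 using hr
  -- local stable sets are null
  have hW : ∀ p : B, volume {z : V → ℝ | ∃ x : ℝ → V → ℝ, Sol a x ∧ x 0 = z ∧
      ∀ t, 0 ≤ t → dist (x t) p ≤ r p} = 0 := by
    intro p
    obtain ⟨w, hw⟩ := hQ3 p
    apply h3 V (Q p) (hQ1 p) (hQ2 p) w hw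
    rintro _ ⟨x, hx, rfl, hx'⟩ _ ⟨y, hy, rfl, hy'⟩
    exact hQ4 p x y hx hy hx' hy'
  -- countable cover
  obtain ⟨T, hTc, hT⟩ := TopologicalSpace.isOpen_iUnion_countable
    (fun p : B => Metric.ball (p : V → ℝ) (r p)) (fun p => Metric.isOpen_ball)
  have hN : volume (⋃ p ∈ T, ⋃ n : ℕ, {z : V → ℝ | ∃ x : ℝ → V → ℝ, Sol a x ∧ x 0 = z ∧
      x n ∈ {z : V → ℝ | ∃ x : ℝ → V → ℝ, Sol a x ∧ x 0 = z ∧
        ∀ t, 0 ≤ t → dist (x t) p ≤ r p}}) = 0 := by
    rw [measure_biUnion_null_iff hTc]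
    intro p _
    rw [measure_iUnion_null_iff]
    intro n
    exact h4 V a _ (hW p) n n.cast_nonneg
  rw [ae_iff]
  refine measure_mono_null ?_ hN
  intro z hz
  rw [Set.mem_ofPred_eq] at hz
  push Not at hz
  obtain ⟨x, hx, hx0, i, j, hij⟩ := hz
  obtain ⟨p, hp, hlim⟩ := h1 V a ha C hKL x hx
  have hbad : ∃ u v, Real.cos (p u - p v) ≠ 1 := by
    by_contra hcon
    push Not at hcon
    apply hij
    have e1 : Tendsto (fun t => x t i - x t j) atTop (𝓝 (p i - p j)) :=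
      ((tendsto_pi_nhds.1 hlim i).sub (tendsto_pi_nhds.1 hlim j))
    have e2 : ((p i - p j : ℝ) : Real.Angle) = 0 := by
      obtain ⟨k, hk⟩ := (Real.cos_eq_one_iff _).1 (hcon i j)
      rw [Real.Angle.coe_eq_zero_iff]
      exact ⟨k, by rw [← hk]; simp⟩
    rw [← e2]
    exact (Real.Angle.continuous_coe.tendsto _).comp e1
  obtain ⟨w, hw⟩ := hSTR p hp hbad
  have hpB : p ∈ ⋃ q : B, Metric.ball (q : V → ℝ) (r q) :=
    mem_iUnion.2 ⟨⟨p, hp, w, hw⟩, Metric.mem_ball_self (hr0 _)⟩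
  rw [← hT] at hpB
  obtain ⟨q, hqT, hq⟩ := mem_iUnion₂.1 hpB
  have hev : ∀ᶠ t in atTop, x t ∈ Metric.ball (q : V → ℝ) (r q) :=
    hlim.eventually (Metric.isOpen_ball.mem_nhds hq)
  obtain ⟨t0, ht0⟩ := eventually_atTop.1 hev
  obtain ⟨n, hn⟩ := exists_nat_ge t0
  refine mem_iUnion₂.2 ⟨q, hqT, mem_iUnion.2 ⟨n, x, hx, hx0, fun t => x (n + t),
    sol_shift hx n.cast_nonneg, by simp, fun t ht => ?_⟩⟩
  exact (Metric.mem_ball.1 (ht0 _ (by linarith))).le

/-- the trap -/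
theorem ngs (h5 : S_EXI) (h6 : S_DEC) (h9 : S_TRAP) :
    ¬ ∀ᵐ z : Option (Fin 24 × Option (Fin 10)) → ℝ, ∀ x : ℝ → Option (Fin 24 × Option (Fin 10)) → ℝ,
      Sol (univ 24 10) x → x 0 = z →
      ∀ i j, Tendsto (fun t => ((x t i - x t j : ℝ) : Real.Angle)) atTop (𝓝 0) := by
  intro hae
  obtain ⟨E, ⟨x0, hx0, hx0'⟩, hE⟩ := h9
  have hsym : ∀ i j, univ 24 10 i j = univ 24 10 j i := by
    intro i j
    have hc : ∀ u v, cor 24 10 u v = cor 24 10 v u := by
      intro u v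
      unfold cor
      by_cases h : u.1 = v.1
      · rw [if_pos h, if_pos h.symm]
        have e : ((u.2 = none ∧ v.2 ≠ none) ∨ (u.2 ≠ none ∧ v.2 = none)) ↔
            ((v.2 = none ∧ u.2 ≠ none) ∨ (v.2 ≠ none ∧ u.2 = none)) := by tauto
        exact if_congr e rfl rfl
      · have h' : ¬ v.1 = u.1 := fun h' => h h'.symm
        rw [if_neg h, if_neg h']
        exact if_congr And.comm rfl rfl
    cases i <;> cases j <;> simp only [univ]
    exact hc _ _
  have hcd : ∀ i, Continuous fun x : Option (Fin 24 × Option (Fin 10)) → ℝ => dis x i := by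
    intro i
    unfold dis
    fun_prop
  have hcH : Continuous fun x : Option (Fin 24 × Option (Fin 10)) → ℝ => H (univ 24 10) x := by
    unfold H
    fun_prop
  set U : Set (Option (Fin 24 × Option (Fin 10)) → ℝ) :=
    {x | H (univ 24 10) x < E} ∩ ⋂ i, {x | dis x i ∈ Ioo (2 / 5 : ℝ) (3 / 4)} with hU
  have hUo : IsOpen U := by
    apply (isOpen_lt hcH continuous_const).inter
    apply isOpen_iInter_of_finite
    intro i
    exact isOpen_Ioo.preimage (hcd i)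
  have hUpos : 0 < volume U :=
    hUo.measure_pos volume ⟨x0, hx0, mem_iInter.2 hx0'⟩
  -- all solutions starting in `U` stay in the box
  have hstay : ∀ x : ℝ → Option (Fin 24 × Option (Fin 10)) → ℝ, Sol (univ 24 10) x → x 0 ∈ U →
      ∀ t, 0 ≤ t → x t ∈ U := by
    intro x hx h0
    have hxc : ContinuousOn x (Ici 0) := by
      rw [continuousOn_pi]
      intro i t ht
      exact (hx t ht i).continuousWithinAt
    have hdec := h6 _ _ hsym x hx
    have hlt : ∀ t, 0 ≤ t → H (univ 24 10) (x t) < E := fun t ht =>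
      lt_of_le_of_lt (hdec (mem_Ici.2 le_rfl) (mem_Ici.2 ht) ht) h0.1
    by_contra hcon
    push Not at hcon
    obtain ⟨t, ht, htU⟩ := hcon
    set S : Set ℝ := {s | 0 ≤ s ∧ x s ∉ U} with hS
    have hSne : S.Nonempty := ⟨t, ht, htU⟩
    have hSb : BddBelow S := ⟨0, fun s hs => hs.1⟩
    set τ := sInf S with hτ
    have hτ0 : 0 ≤ τ := le_csInf hSne fun s hs => hs.1
    have hSc : IsClosed S := by
      have : S = Ici 0 ∩ x ⁻¹' Uᶜ := by
        ext s; simp [hS]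
      rw [this]
      exact hxc.preimage_isClosed_of_isClosed isClosed_Ici hUo.isClosed_compl
    have hτS : τ ∈ S := hSc.csInf_mem hSne hSb
    have hτpos : 0 < τ := by
      rcases hτ0.eq_or_lt with h | h
      · exfalso
        rw [← h] at hτS
        exact hτS.2 h0
      · exact h
    have hbefore : ∀ s, 0 ≤ s → s < τ → x s ∈ U := by
      intro s hs hsτ
      by_contra hsU
      exact absurd (csInf_le hSb ⟨hs, hsU⟩) (not_le.2 hsτ)
    have hbox : ∀ i, dis (x τ) i ∈ Icc (2 / 5 : ℝ) (3 / 4) := by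
      intro i
      have hcw : ContinuousWithinAt (fun s => dis (x s) i) (Ico 0 τ) τ := by
        have h7 : Ico 0 τ ⊆ Ici (0 : ℝ) := fun s (hs : s ∈ Ico 0 τ) => hs.1
        have := (hxc τ hτ0).mono h7
        exact (hcd i).continuousAt.comp_continuousWithinAt this
      have hcl : τ ∈ closure (Ico 0 τ) := by
        rw [closure_Ico hτpos.ne]
        exact ⟨hτ0, le_rfl⟩
      have hmt : MapsTo (fun s => dis (x s) i) (Ico 0 τ) (Icc (2 / 5 : ℝ) (3 / 4)) :=
        fun s (hs : s ∈ Ico 0 τ) =>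
          Ioo_subset_Icc_self (mem_iInter.1 (hbefore s hs.1 hs.2).2 i)
      have := hcw.mem_closure hcl hmt
      rwa [isClosed_Icc.closure_eq] at this
    exact hτS.2 ⟨hlt τ hτ0, mem_iInter.2 (hE (x τ) (hlt τ hτ0) hbox)⟩
  rw [ae_iff] at hae
  have hsub : U ⊆ {z | ¬ ∀ x : ℝ → Option (Fin 24 × Option (Fin 10)) → ℝ,
      Sol (univ 24 10) x → x 0 = z →
      ∀ i j, Tendsto (fun t => ((x t i - x t j : ℝ) : Real.Angle)) atTop (𝓝 0)} := by
    intro z hz hcon
    obtain ⟨x, hx, hx0⟩ := h5 _ (univ 24 10) z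
    have hst := hstay x hx (by rw [hx0]; exact hz)
    obtain ⟨p0, hp0⟩ : ∃ i : Fin 24, i.1 < 12 := ⟨⟨0, by norm_num⟩, by norm_num⟩
    obtain ⟨p1, hp1⟩ : ∃ i : Fin 24, ¬ i.1 < 12 := ⟨⟨12, by norm_num⟩, by norm_num⟩
    have hl := hcon x hx hx0 (some (p0, none)) (some (p1, none))
    -- the cosine of the difference is less than `cos (4/5)`
    have hl2 : Tendsto (fun t => Real.cos (x t (some (p0, none)) -
        x t (some (p1, none)))) atTop (𝓝 1) := by
      have e := (Real.Angle.continuous_cos.tendsto _).comp hl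
      rw [Real.Angle.cos_zero] at e
      exact e
    have hlt : Real.cos (4 / 5) < 1 := by
      rw [← Real.cos_zero]
      exact Real.cos_lt_cos_of_nonneg_of_le_pi le_rfl (by linarith [Real.pi_gt_three]) (by norm_num)
    have hle : ∀ᶠ t in atTop, Real.cos (x t (some (p0, none)) -
        x t (some (p1, none))) ≤ Real.cos (4 / 5) := by
      filter_upwards [eventually_ge_atTop 0] with t ht
      have a1 : dis (x t) p0 ∈ Ioo (2 / 5 : ℝ) (3 / 4) := mem_iInter.1 (hst t ht).2 p0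
      have a2 : dis (x t) p1 ∈ Ioo (2 / 5 : ℝ) (3 / 4) := mem_iInter.1 (hst t ht).2 p1
      rw [dis, if_pos hp0] at a1
      rw [dis, if_neg hp1] at a2
      apply Real.cos_le_cos_of_nonneg_of_le_pi
      · norm_num
      · have := Real.pi_gt_three
        linarith [a1.2, a2.2]
      · linarith [a1.1, a2.1]
    exact absurd (le_of_tendsto hl2 hle) (not_le.2 hlt)
  exact absurd (measure_mono_null hsub hae) hUpos.ne'

end Pool.Agent.Q77.KU
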