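import Pool.Agent.Q77.KU.Stm
import Pool.Agent.H839R2.Ode.Flow

set_option autoImplicit false

namespace Pool.Agent.Q77.KU.PE

open Filter Topology Set MeasureTheory Pool.Agent.Q77.KU
open scoped NNReal

theorem sin_lip (x y : ℝ) : |Real.sin x - Real.sin y| ≤ |x - y| := by
  have := Real.abs_sin_sub_sin_le x y
  exact this

theorem F_lip {V : Type} [Fintype V] (a : V → V → ℝ) (x y : V → ℝ) :
    dist (F a x) (F a y) ≤ (2 * ∑ i, ∑ j, |a i j|) * dist x y := by
  have hK : 0 ≤ ∑ i, ∑ j, |a i j| :=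
    Finset.sum_nonneg fun i _ => Finset.sum_nonneg fun j _ => abs_nonneg _
  rw [dist_pi_le_iff (by positivity)]
  intro i
  rw [Real.dist_eq]
  unfold F
  rw [← Finset.sum_sub_distrib]
  refine (Finset.abs_sum_le_sum_abs _ _).trans ?_
  have h1 : ∀ j, |a i j * Real.sin (x j - x i) - a i j * Real.sin (y j - y i)| ≤
      |a i j| * (2 * dist x y) := by
    intro j
    rw [← mul_sub, abs_mul]
    apply mul_le_mul_of_nonneg_left _ (abs_nonneg _)
    refine (sin_lip _ _).trans ?_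
    have hi : |x i - y i| ≤ dist x y := by
      rw [← Real.dist_eq]; exact dist_le_pi_dist x y i
    have hj : |x j - y j| ≤ dist x y := by
      rw [← Real.dist_eq]; exact dist_le_pi_dist x y j
    rw [show x j - x i - (y j - y i) = (x j - y j) - (x i - y i) by ring]
    refine (abs_sub _ _).trans ?_
    linarith
  refine (Finset.sum_le_sum fun j _ => h1 j).trans ?_
  rw [← Finset.sum_mul]
  have h2 : ∑ j, |a i j| ≤ ∑ i, ∑ j, |a i j| :=
    Finset.single_le_sum (f := fun i => ∑ j, |a i j|)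
      (fun i _ => Finset.sum_nonneg fun j _ => abs_nonneg _) (Finset.mem_univ i)
  nlinarith [dist_nonneg (x := x) (y := y)]

theorem F_bd {V : Type} [Fintype V] (a : V → V → ℝ) (x : V → ℝ) :
    ‖F a x‖ ≤ ∑ i, ∑ j, |a i j| := by
  have hK : 0 ≤ ∑ i, ∑ j, |a i j| :=
    Finset.sum_nonneg fun i _ => Finset.sum_nonneg fun j _ => abs_nonneg _
  rw [pi_norm_le_iff_of_nonneg hK]
  intro i
  rw [Real.norm_eq_abs]
  unfold F
  refine (Finset.abs_sum_le_sum_abs _ _).trans ?_
  refine le_trans (Finset.sum_le_sum (g := fun j => |a i j|) fun j _ => ?_)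
    (Finset.single_le_sum (f := fun i => ∑ j, |a i j|)
      (fun i _ => Finset.sum_nonneg fun j _ => abs_nonneg _) (Finset.mem_univ i))
  rw [abs_mul]
  exact mul_le_of_le_one_right (abs_nonneg _) (Real.abs_sin_le_one _)

theorem t_EXI : S_EXI := by
  intro V _ a z
  have hK : 0 ≤ ∑ i, ∑ j, |a i j| :=
    Finset.sum_nonneg fun i _ => Finset.sum_nonneg fun j _ => abs_nonneg _
  obtain ⟨x, h0, h1⟩ := Pool.Agent.H839R2.Ode.exists_global_solution (F a)
    ⟨2 * ∑ i, ∑ j, |a i j|, by positivity⟩ ⟨∑ i, ∑ j, |a i j|, hK⟩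
    (LipschitzWith.of_dist_le_mul fun x y => F_lip a x y) (fun x => F_bd a x) z
  refine ⟨x, ?_, h0⟩
  intro t _ i
  exact (hasDerivAt_pi.1 (h1 t) i).hasDerivWithinAt

end Pool.Agent.Q77.KU.PE
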