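import Pool.Agent.Q77.KU.Stm
import Pool.Agent.Q77.KU.EXI

set_option autoImplicit false

namespace Pool.Agent.Q77.KU.PB

open Filter Topology Set MeasureTheory Pool.Agent.Q77.KU Pool.Agent.Q77.KU.PE
open scoped NNReal

theorem back_dist {V : Type} [Fintype V] {a : V → V → ℝ} {x y : ℝ → V → ℝ} (hx : Sol a x)
    (hy : Sol a y) {T : ℝ} (hT : 0 ≤ T) :
    dist (x 0) (y 0) ≤ dist (x T) (y T) * Real.exp ((2 * ∑ i, ∑ j, |a i j|) * T) := by
  have hK : 0 ≤ ∑ i, ∑ j, |a i j| :=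
    Finset.sum_nonneg fun i _ => Finset.sum_nonneg fun j _ => abs_nonneg _
  set K : ℝ≥0 := ⟨2 * ∑ i, ∑ j, |a i j|, by positivity⟩ with hKdef
  have hlip : LipschitzWith K (fun z => -F a z) :=
    (LipschitzWith.of_dist_le_mul fun x y => F_lip a x y).neg
  have hc : ∀ z : ℝ → V → ℝ, Sol a z → ContinuousOn (fun s => z (T - s)) (Icc 0 T) := by
    intro z hz
    have h1 : ContinuousOn z (Ici 0) := by
      rw [continuousOn_pi]
      intro i t ht
      exact (hz t ht i).continuousWithinAt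
    apply h1.comp (by fun_prop)
    intro s hs
    have : (0 : ℝ) ≤ T - s := by linarith [hs.2]
    exact this
  have hd : ∀ z : ℝ → V → ℝ, Sol a z → ∀ s ∈ Ico (0 : ℝ) T,
      HasDerivWithinAt (fun s => z (T - s)) (-F a (z (T - s))) (Ici s) s := by
    intro z hz s hs
    have hpos : 0 < T - s := by linarith [hs.2]
    have h1 : HasDerivAt z (F a (z (T - s))) (T - s) := by
      rw [hasDerivAt_pi]
      intro i
      exact (hz (T - s) hpos.le i).hasDerivAt (Ici_mem_nhds hpos)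
    have h2 : HasDerivAt (fun s : ℝ => T - s) (-1) s := by
      simpa using (hasDerivAt_id s).const_sub T
    have h3 := HasDerivAt.scomp s h1 h2
    rw [neg_one_smul] at h3
    exact h3.hasDerivWithinAt
  have := dist_le_of_trajectories_ODE (v := fun _ z => -F a z) (K := K)
    (f := fun s => x (T - s)) (g := fun s => y (T - s)) (a := 0) (b := T)
    (δ := dist (x T) (y T)) (fun _ => hlip) (hc x hx) (hd x hx) (hc y hy) (hd y hy)
    (by simp) T ⟨hT, le_rfl⟩
  have e : (K : ℝ) = 2 * ∑ i, ∑ j, |a i j| := rfl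
  rw [e] at this
  simpa using this

theorem t_BACK : S_BACK := by
  intro V _ a W hW T hT
  have hK : 0 ≤ ∑ i, ∑ j, |a i j| :=
    Finset.sum_nonneg fun i _ => Finset.sum_nonneg fun j _ => abs_nonneg _
  classical
  set W' : Set (V → ℝ) := {w | w ∈ W ∧ ∃ x : ℝ → V → ℝ, Sol a x ∧ x T = w} with hW'
  have hch : ∀ w : V → ℝ, ∃ z : V → ℝ, w ∈ W' → ∃ x : ℝ → V → ℝ, Sol a x ∧ x T = w ∧ x 0 = z := by
    intro w
    by_cases h : w ∈ W'
    · obtain ⟨_, x, hx, hxT⟩ := h
      exact ⟨x 0, fun _ => ⟨x, hx, hxT, rfl⟩⟩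
    · exact ⟨0, fun h' => absurd h' h⟩
  choose ψ hψ using hch
  set K : ℝ≥0 := ⟨Real.exp ((2 * ∑ i, ∑ j, |a i j|) * T), (Real.exp_pos _).le⟩ with hKd
  have hlip : LipschitzOnWith K ψ W' := by
    apply LipschitzOnWith.of_dist_le_mul
    intro w hw w' hw'
    obtain ⟨x, hx, hxT, hx0⟩ := hψ w hw
    obtain ⟨y, hy, hyT, hy0⟩ := hψ w' hw'
    have := back_dist hx hy hT
    rw [hx0, hy0, hxT, hyT, mul_comm] at this
    exact this
  have hsub : {z : V → ℝ | ∃ x : ℝ → V → ℝ, Sol a x ∧ x 0 = z ∧ x T ∈ W} ⊆ ψ '' W' := by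
    rintro z ⟨x, hx, hx0, hxT⟩
    have hm : x T ∈ W' := ⟨hxT, x, hx, rfl⟩
    refine ⟨x T, hm, ?_⟩
    obtain ⟨y, hy, hyT, hy0⟩ := hψ (x T) hm
    have := back_dist hx hy hT
    rw [hyT, dist_self, zero_mul] at this
    rw [← hy0, ← hx0]
    exact (dist_le_zero.1 this).symm
  apply measure_mono_null hsub
  have hvol : (volume : Measure (V → ℝ)) = Measure.hausdorffMeasure (Fintype.card V) :=
    hausdorffMeasure_pi_real.symm
  rw [hvol]
  have h0 : Measure.hausdorffMeasure (X := V → ℝ) (Fintype.card V) W' = 0 := by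
    rw [← hvol]
    exact measure_mono_null (fun w hw => hw.1) hW
  have := hlip.hausdorffMeasure_image_le (d := (Fintype.card V : ℝ)) (by positivity) (s := W')
  rw [h0, mul_zero] at this
  exact le_antisymm this bot_le

end Pool.Agent.Q77.KU.PB
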