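import Pool.Agent.Q77.KU.Stm

set_option autoImplicit false

namespace Pool.Agent.Q77.KU.PD

open Filter Topology Set MeasureTheory Pool.Agent.Q77.KU

theorem t_DEC' {V : Type} [Fintype V] {a : V → V → ℝ} (ha : ∀ i j, a i j = a j i)
    {x : ℝ → V → ℝ} (hx : Sol a x) {t : ℝ} (ht : 0 ≤ t) :
    HasDerivWithinAt (fun s => H a (x s)) (-(G2 a (x t))) (Ici 0) t := by
  have h1 : ∀ i j, HasDerivWithinAt (fun s => a i j * Real.cos (x s i - x s j))
      (a i j * (-Real.sin (x t i - x t j) * (F a (x t) i - F a (x t) j))) (Ici 0) t := by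
    intro i j
    exact (((hx t ht i).sub (hx t ht j)).cos).const_mul _
  have h2 : HasDerivWithinAt (fun s => H a (x s))
      (-(1 / 2) * ∑ i, ∑ j, a i j * (-Real.sin (x t i - x t j) * (F a (x t) i - F a (x t) j)))
      (Ici 0) t := by
    unfold H
    apply HasDerivWithinAt.const_mul
    apply HasDerivWithinAt.fun_sum
    intro i _
    apply HasDerivWithinAt.fun_sum
    intro j _
    exact h1 i j
  have e : -(1 / 2) * ∑ i, ∑ j, a i j * (-Real.sin (x t i - x t j) * (F a (x t) i - F a (x t) j)) =
      -(G2 a (x t)) := by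
    have e1 : ∀ i j, a i j * (-Real.sin (x t i - x t j) * (F a (x t) i - F a (x t) j)) =
        (a i j * Real.sin (x t j - x t i)) * F a (x t) i +
        (a j i * Real.sin (x t i - x t j)) * F a (x t) j := by
      intro i j
      rw [ha j i, show x t j - x t i = -(x t i - x t j) by ring, Real.sin_neg]
      ring
    have e2 : ∑ i, ∑ j, (a i j * Real.sin (x t j - x t i)) * F a (x t) i = G2 a (x t) := by
      unfold G2
      apply Finset.sum_congr rfl
      intro i _
      rw [← Finset.sum_mul, sq]
      rfl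
    have e3 : ∑ i, ∑ j, (a j i * Real.sin (x t i - x t j)) * F a (x t) j = G2 a (x t) := by
      rw [Finset.sum_comm]
      exact e2
    simp only [e1, Finset.sum_add_distrib]
    rw [e2, e3]
    ring
  rw [← e]
  exact h2

theorem t_DEC : S_DEC := by
  intro V _ a ha x hx
  apply antitoneOn_of_deriv_nonpos (convex_Ici 0)
  · intro t ht
    exact (t_DEC' ha hx ht).continuousWithinAt
  · rw [interior_Ici]
    intro t ht
    exact ((t_DEC' ha hx (le_of_lt ht)).hasDerivAt (Ici_mem_nhds ht)).differentiableAt.differentiableWithinAt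
  · rw [interior_Ici]
    intro t ht
    rw [((t_DEC' ha hx (le_of_lt ht)).hasDerivAt (Ici_mem_nhds ht)).deriv]
    have : 0 ≤ G2 a (x t) := Finset.sum_nonneg fun i _ => sq_nonneg _
    linarith

end Pool.Agent.Q77.KU.PD
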