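import Pool.Agent.Q77.KU.Stm
import Pool.Agent.Q77.KU.DEC
import Pool.Agent.Q77.KU.EXI

set_option autoImplicit false

namespace Pool.Agent.Q77.KU.PC

open Filter Topology Set MeasureTheory Pool.Agent.Q77.KU Pool.Agent.Q77.KU.PD Pool.Agent.Q77.KU.PE

variable {V : Type} [Fintype V]

theorem G2_nonneg (a : V → V → ℝ) (x : V → ℝ) : 0 ≤ G2 a x :=
  Finset.sum_nonneg fun i _ => sq_nonneg _

theorem F_le (a : V → V → ℝ) (x : V → ℝ) (i : V) : |F a x i| ≤ Real.sqrt (G2 a x) := by
  rw [← Real.sqrt_sq_eq_abs]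
  apply Real.sqrt_le_sqrt
  exact Finset.single_le_sum (f := fun i => F a x i ^ 2) (fun i _ => sq_nonneg _)
    (Finset.mem_univ i)

theorem H_bd (a : V → V → ℝ) (x : V → ℝ) : -(∑ i, ∑ j, |a i j|) ≤ H a x := by
  unfold H
  have h1 : ∑ i, ∑ j, a i j * Real.cos (x i - x j) ≤ ∑ i, ∑ j, |a i j| := by
    apply Finset.sum_le_sum
    intro i _
    apply Finset.sum_le_sum
    intro j _
    refine (le_abs_self _).trans ?_
    rw [abs_mul]
    exact mul_le_of_le_one_right (abs_nonneg _) (Real.abs_cos_le_one _)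
  have h0 : 0 ≤ ∑ i, ∑ j, |a i j| :=
    Finset.sum_nonneg fun i _ => Finset.sum_nonneg fun j _ => abs_nonneg _
  linarith

theorem sol_lip {a : V → V → ℝ} {x : ℝ → V → ℝ} (hx : Sol a x) {s t : ℝ} (hs : 0 ≤ s)
    (hst : s ≤ t) : dist (x t) (x s) ≤ (∑ i, ∑ j, |a i j|) * (t - s) := by
  have h0 : 0 ≤ ∑ i, ∑ j, |a i j| :=
    Finset.sum_nonneg fun i _ => Finset.sum_nonneg fun j _ => abs_nonneg _
  rw [dist_pi_le_iff (by nlinarith)]
  intro i
  have h := Convex.norm_image_sub_le_of_norm_hasDerivWithin_le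
    (f := fun u => x u i) (f' := fun u => F a (x u) i) (s := Ici (0 : ℝ)) (x := s) (y := t)
    (C := ∑ i, ∑ j, |a i j|) (fun u hu => hx u hu i)
    (fun u _ => (norm_le_pi_norm (F a (x u)) i).trans (F_bd a (x u))) (convex_Ici 0) hs
    (le_trans hs hst)
  rw [Real.norm_eq_abs (t - s), abs_of_nonneg (by linarith)] at h
  rw [dist_eq_norm]
  exact h

theorem G2_lip (a : V → V → ℝ) : ∃ L : ℝ, 0 < L ∧ ∀ x y : V → ℝ, |G2 a x - G2 a y| ≤ L * dist x y := by
  set K : ℝ := ∑ i, ∑ j, |a i j| with hK
  have h0 : 0 ≤ K :=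
    Finset.sum_nonneg fun i _ => Finset.sum_nonneg fun j _ => abs_nonneg _
  refine ⟨(Fintype.card V : ℝ) * (2 * K * (2 * K)) + 1, by positivity, fun x y => ?_⟩
  have h1 : ∀ i, |F a x i ^ 2 - F a y i ^ 2| ≤ 2 * K * (2 * K) * dist x y := by
    intro i
    rw [sq_sub_sq, abs_mul]
    have hb : ∀ z, |F a z i| ≤ K := fun z => by
      rw [← Real.norm_eq_abs]; exact (norm_le_pi_norm (F a z) i).trans (F_bd a z)
    have e1 : |F a x i + F a y i| ≤ 2 * K := by
      refine (abs_add_le _ _).trans ?_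
      linarith [hb x, hb y]
    have e2 : |F a x i - F a y i| ≤ 2 * K * dist x y := by
      rw [← Real.dist_eq]
      exact (dist_le_pi_dist (F a x) (F a y) i).trans (F_lip a x y)
    calc |F a x i + F a y i| * |F a x i - F a y i| ≤ (2 * K) * (2 * K * dist x y) :=
          mul_le_mul e1 e2 (abs_nonneg _) (by positivity)
      _ = _ := by ring
  unfold G2
  rw [← Finset.sum_sub_distrib]
  refine (Finset.abs_sum_le_sum_abs _ _).trans ?_
  refine (Finset.sum_le_sum fun i _ => h1 i).trans ?_
  rw [Finset.sum_const, Finset.card_univ, nsmul_eq_mul]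
  nlinarith [dist_nonneg (x := x) (y := y)]

/-- Barbalat for the speed -/
theorem G2_tendsto {a : V → V → ℝ} (ha : ∀ i j, a i j = a j i) {x : ℝ → V → ℝ} (hx : Sol a x)
    {e : ℝ} (he : Tendsto (fun t => H a (x t)) atTop (𝓝 e)) :
    Tendsto (fun t => G2 a (x t)) atTop (𝓝 0) := by
  obtain ⟨L, hL, hLip⟩ := G2_lip a
  set K : ℝ := ∑ i, ∑ j, |a i j| with hK
  have hK0 : 0 ≤ K :=
    Finset.sum_nonneg fun i _ => Finset.sum_nonneg fun j _ => abs_nonneg _
  set M : ℝ := L * K + 1 with hM
  have hM0 : 0 < M := by positivity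
  have hg : ∀ s t, 0 ≤ s → s ≤ t → |G2 a (x t) - G2 a (x s)| ≤ M * (t - s) := by
    intro s t hs hst
    refine (hLip _ _).trans ?_
    have := sol_lip hx hs hst
    have h2 : L * dist (x t) (x s) ≤ L * (K * (t - s)) := mul_le_mul_of_nonneg_left this hL.le
    nlinarith
  rw [Metric.tendsto_atTop]
  intro ε hε
  -- `H` drops by at least `ε / 2 * δ` with `δ = ε / (2 M)`
  set δ := ε / (2 * M) with hδ
  have hδ0 : 0 < δ := by positivity
  have hev : ∀ᶠ t in atTop, |H a (x t) - e| < ε * δ / 4 := by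
    have := Metric.tendsto_atTop.1 he (ε * δ / 4) (by positivity)
    obtain ⟨N, hN⟩ := this
    filter_upwards [eventually_ge_atTop N] with t ht
    have := hN t ht
    rwa [Real.dist_eq] at this
  obtain ⟨N, hN⟩ := eventually_atTop.1 hev
  refine ⟨max N 0, fun t ht => ?_⟩
  have ht0 : 0 ≤ t := le_trans (le_max_right _ _) ht
  have htN : N ≤ t := le_trans (le_max_left _ _) ht
  rw [Real.dist_eq, sub_zero, abs_of_nonneg (G2_nonneg _ _)]
  by_contra hcon
  push Not at hcon
  have hlow : ∀ s ∈ Icc t (t + δ), ε / 2 ≤ G2 a (x s) := by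
    intro s hs
    have h3 := hg t s ht0 hs.1
    have h4 : M * (s - t) ≤ ε / 2 := by
      have : s - t ≤ δ := by linarith [hs.2]
      calc M * (s - t) ≤ M * δ := mul_le_mul_of_nonneg_left this hM0.le
        _ = ε / 2 := by rw [hδ]; field_simp
    have := (abs_le.1 h3).1
    linarith
  have hdrop : H a (x (t + δ)) - H a (x t) ≤ -(ε / 2) * (t + δ - t) := by
    apply Convex.image_sub_le_mul_sub_of_deriv_le (D := Icc t (t + δ)) (convex_Icc _ _)
      (f := fun s => H a (x s))
    · intro s hs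
      exact ((t_DEC' ha hx (le_trans ht0 hs.1)).continuousWithinAt).mono
        (fun u (hu : u ∈ Icc t (t + δ)) => le_trans ht0 hu.1)
    · rw [interior_Icc]
      intro s hs
      have hs0 : 0 < s := lt_of_le_of_lt ht0 hs.1
      exact ((t_DEC' ha hx hs0.le).hasDerivAt (Ici_mem_nhds hs0)).differentiableAt.differentiableWithinAt
    · rw [interior_Icc]
      intro s hs
      have hs0 : 0 < s := lt_of_le_of_lt ht0 hs.1
      rw [((t_DEC' ha hx hs0.le).hasDerivAt (Ici_mem_nhds hs0)).deriv]
      have := hlow s ⟨hs.1.le, hs.2.le⟩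
      linarith
    · exact ⟨le_rfl, by linarith⟩
    · exact ⟨by linarith, le_rfl⟩
    · linarith
  have h5 := hN t htN
  have h6 := hN (t + δ) (by linarith)
  rw [abs_lt] at h5 h6
  have : -(ε / 2) * (t + δ - t) = -(ε * δ / 2) := by ring
  rw [this] at hdrop
  nlinarith [h5.1, h5.2, h6.1, h6.2]

/-- a Cauchy criterion -/
theorem conv_of_bound {x : ℝ → V → ℝ} {T : ℝ} {v : ℝ → ℝ} (hv : Tendsto v atTop (𝓝 0))
    (hv0 : ∀ t, T ≤ t → 0 ≤ v t)
    (h : ∀ t s, T ≤ t → t ≤ s → ∀ i, |x s i - x t i| ≤ v t) : ∃ p, Tendsto x atTop (𝓝 p) := by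
  have hc : CauchySeq (fun t : ℝ => x (max t T)) := by
    apply cauchySeq_of_le_tendsto_0 (fun t => 2 * v (max t T))
    · intro n m N hn hm
      have key : ∀ k, N ≤ k → dist (x (max k T)) (x (max N T)) ≤ v (max N T) := by
        intro k hk
        rw [dist_pi_le_iff (hv0 _ (le_max_right _ _))]
        intro i
        rw [Real.dist_eq]
        exact h _ _ (le_max_right _ _) (max_le_max_right T hk) i
      calc dist (x (max n T)) (x (max m T)) ≤ dist (x (max n T)) (x (max N T)) +
            dist (x (max m T)) (x (max N T)) := dist_triangle_right _ _ _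
        _ ≤ v (max N T) + v (max N T) := add_le_add (key n hn) (key m hm)
        _ = _ := by ring
    · have h1 : Tendsto (fun t => v (max t T)) atTop (𝓝 0) := by
        apply hv.congr'
        filter_upwards [eventually_ge_atTop T] with t ht
        rw [max_eq_left ht]
      simpa using h1.const_mul 2
  obtain ⟨p, hp⟩ := cauchySeq_tendsto_of_complete hc
  refine ⟨p, hp.congr' ?_⟩
  filter_upwards [eventually_ge_atTop T] with t ht
  rw [max_eq_left ht]

theorem anti_of_deriv {f f' : ℝ → ℝ} {T : ℝ} (hf : ∀ t, T ≤ t → HasDerivWithinAt f (f' t) (Ici T) t)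
    (h : ∀ t, T < t → f' t ≤ 0) {s t : ℝ} (ht : T ≤ t) (hts : t ≤ s) : f s ≤ f t := by
  have : AntitoneOn f (Ici T) := by
    apply antitoneOn_of_deriv_nonpos (convex_Ici T)
    · intro t ht
      exact (hf t ht).continuousWithinAt
    · rw [interior_Ici]
      intro t ht
      exact ((hf t (le_of_lt ht)).hasDerivAt (Ici_mem_nhds ht)).differentiableAt.differentiableWithinAt
    · rw [interior_Ici]
      intro t ht
      rw [((hf t (le_of_lt ht)).hasDerivAt (Ici_mem_nhds ht)).deriv]
      exact h t ht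
  exact this (mem_Ici.2 ht) (mem_Ici.2 (ht.trans hts)) hts

theorem t_CONV : S_CONV := by
  intro V _ a ha C hKL x hx
  have hdec := t_DEC V a ha x hx
  -- the limit of the energy
  obtain ⟨e, he⟩ : ∃ e, Tendsto (fun t => H a (x t)) atTop (𝓝 e) := by
    have hanti : Antitone (fun t : ℝ => H a (x (max t 0))) := by
      intro s t hst
      exact hdec (mem_Ici.2 (le_max_right _ _)) (mem_Ici.2 (le_max_right _ _))
        (max_le_max_right 0 hst)
    have hb : BddBelow (range (fun t : ℝ => H a (x (max t 0)))) :=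
      ⟨-(∑ i, ∑ j, |a i j|), by rintro _ ⟨t, rfl⟩; exact H_bd a _⟩
    refine ⟨_, (tendsto_atTop_ciInf hanti hb).congr' ?_⟩
    filter_upwards [eventually_ge_atTop 0] with t ht
    rw [max_eq_left ht]
  have hele : ∀ t, 0 ≤ t → e ≤ H a (x t) := by
    intro t ht
    apply le_of_tendsto he
    filter_upwards [eventually_ge_atTop t] with s hs
    exact hdec (mem_Ici.2 ht) (mem_Ici.2 (ht.trans hs)) hs
  have hG := G2_tendsto ha hx he
  choose k hk using hKL
  set C' : ℝ := |C| + 1 with hC'
  have hC'0 : 0 < C' := by positivity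
  have hk' : ∀ y, |H a y - k y / 2| ^ 3 ≤ C' * G2 a y ^ 2 := by
    intro y
    refine (hk y).trans ?_
    apply mul_le_mul_of_nonneg_right _ (sq_nonneg _)
    linarith [le_abs_self C]
  have hk0 : Tendsto (fun t => |H a (x t) - k (x t) / 2| ^ 3) atTop (𝓝 0) := by
    have h1 : Tendsto (fun t => C' * G2 a (x t) ^ 2) atTop (𝓝 0) := by
      simpa using (hG.pow 2).const_mul C'
    exact squeeze_zero (fun t => by positivity) (fun t => hk' (x t)) h1
  -- the integer is eventually constant
  obtain ⟨T0, hT0, k0, hk0'⟩ : ∃ T0 : ℝ, 0 ≤ T0 ∧ ∃ k0 : ℤ, ∀ t, T0 ≤ t → k (x t) = k0 := by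
    have e1 : ∀ᶠ t in atTop, |H a (x t) - k (x t) / 2| ^ 3 < (1 / 8) ^ 3 :=
      hk0.eventually (Iio_mem_nhds (by norm_num))
    have e2 : ∀ᶠ t in atTop, |H a (x t) - e| < 1 / 8 := by
      have := Metric.tendsto_atTop.1 he (1 / 8) (by norm_num)
      obtain ⟨N, hN⟩ := this
      filter_upwards [eventually_ge_atTop N] with t ht
      have := hN t ht
      rwa [Real.dist_eq] at this
    obtain ⟨T, hT⟩ := eventually_atTop.1 (e1.and e2)
    refine ⟨max T 0, le_max_right _ _, k (x (max T 0)), fun t ht => ?_⟩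
    have hclose : ∀ t, T ≤ t → |(k (x t) : ℝ) / 2 - e| < 1 / 4 := by
      intro t ht
      obtain ⟨h1, h2⟩ := hT t ht
      have h3 : |H a (x t) - k (x t) / 2| < 1 / 8 := lt_of_pow_lt_pow_left₀ 3 (by norm_num) h1
      rw [abs_lt] at h2 h3 ⊢
      constructor <;> linarith [h2.1, h2.2, h3.1, h3.2]
    have h4 := hclose t (le_trans (le_max_left _ _) ht)
    have h5 := hclose (max T 0) (le_max_left _ _)
    rw [abs_lt] at h4 h5
    have h6 : ((k (x t) : ℝ) - k (x (max T 0))) < 1 := by linarith [h4.1, h4.2, h5.1, h5.2]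
    have h7 : -1 < ((k (x t) : ℝ) - k (x (max T 0))) := by linarith [h4.1, h4.2, h5.1, h5.2]
    have h8 : k (x t) - k (x (max T 0)) < 1 := by exact_mod_cast h6
    have h9 : -1 < k (x t) - k (x (max T 0)) := by exact_mod_cast h7
    omega
  have hek : e = k0 / 2 := by
    have h1 : Tendsto (fun t => |H a (x t) - k0 / 2| ^ 3) atTop (𝓝 0) := by
      apply hk0.congr'
      filter_upwards [eventually_ge_atTop T0] with t ht
      rw [hk0' t ht]
    have h2 : Tendsto (fun t => |H a (x t) - k0 / 2| ^ 3) atTop (𝓝 (|e - k0 / 2| ^ 3)) :=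
      ((he.sub_const _).abs).pow 3
    have h3 := tendsto_nhds_unique h1 h2
    have h4 : |e - k0 / 2| = 0 := by
      by_contra hne
      have : 0 < |e - k0 / 2| ^ 3 := by positivity
      linarith
    linarith [abs_eq_zero.1 h4]
  have hf3 : ∀ t, T0 ≤ t → (H a (x t) - e) ^ 3 ≤ C' * G2 a (x t) ^ 2 := by
    intro t ht
    have h1 := hk' (x t)
    rw [hk0' t ht, ← hek, abs_of_nonneg (by linarith [hele t (hT0.trans ht)])] at h1
    exact h1
  -- convergence
  have hconv : ∃ p, Tendsto x atTop (𝓝 p) := by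
    by_cases hA : ∃ t1, T0 ≤ t1 ∧ H a (x t1) = e
    · obtain ⟨t1, ht1, h1⟩ := hA
      have ht10 : 0 ≤ t1 := hT0.trans ht1
      have hE : ∀ t, t1 ≤ t → H a (x t) = e := fun t ht =>
        le_antisymm (by rw [← h1]; exact hdec (mem_Ici.2 ht10) (mem_Ici.2 (ht10.trans ht)) ht)
          (hele t (ht10.trans ht))
      have hG0 : ∀ t, t1 < t → G2 a (x t) = 0 := by
        intro t ht
        have ht0 : 0 < t := lt_of_le_of_lt ht10 ht
        have d1 := (t_DEC' ha hx ht0.le).hasDerivAt (Ici_mem_nhds ht0)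
        have d2 : HasDerivAt (fun s => H a (x s)) 0 t := by
          apply (hasDerivAt_const t e).congr_of_eventuallyEq
          filter_upwards [Ioi_mem_nhds ht] with s hs
          exact hE s (le_of_lt hs)
        have := d1.unique d2
        linarith
      have hF0 : ∀ t, t1 < t → ∀ i, F a (x t) i = 0 := by
        intro t ht i
        have := F_le a (x t) i
        rw [hG0 t ht, Real.sqrt_zero] at this
        exact abs_eq_zero.1 (le_antisymm this (abs_nonneg _))
      apply conv_of_bound (T := t1) (v := fun _ => 0) tendsto_const_nhds (fun _ _ => le_rfl)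
      intro t s ht hts i
      have hd : ∀ u, t1 ≤ u → HasDerivWithinAt (fun s => x s i) (F a (x u) i) (Ici t1) u :=
        fun u hu => (hx u (ht10.trans hu) i).mono (Ici_subset_Ici.2 ht10)
      have a1 := anti_of_deriv hd (fun u hu => (hF0 u hu i).le) ht hts
      have a2 := anti_of_deriv (f := fun s => -x s i) (f' := fun u => -F a (x u) i)
        (fun u hu => (hd u hu).neg) (fun u hu => by rw [hF0 u hu i]; simp) ht hts
      have : x s i = x t i := by linarith
      rw [this, sub_self, abs_zero]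
    · push Not at hA
      have hfpos : ∀ t, T0 ≤ t → 0 < H a (x t) - e := by
        intro t ht
        have h1 := hele t (hT0.trans ht)
        have h2 := hA t ht
        rcases h1.eq_or_lt with h | h
        · exact absurd h.symm h2
        · linarith
      set c : ℝ := Real.sqrt (Real.sqrt C') with hc
      have hc0 : 0 < c := Real.sqrt_pos.2 (Real.sqrt_pos.2 hC'0)
      have hc4 : c ^ 4 = C' := by
        rw [show c ^ 4 = (c ^ 2) ^ 2 by ring, hc, Real.sq_sqrt (Real.sqrt_nonneg _),
          Real.sq_sqrt hC'0.le]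
      set u : ℝ → ℝ := fun t => Real.sqrt (Real.sqrt (H a (x t) - e)) with hu
      have hupos : ∀ t, T0 ≤ t → 0 < u t := fun t ht =>
        Real.sqrt_pos.2 (Real.sqrt_pos.2 (hfpos t ht))
      have hu4 : ∀ t, T0 ≤ t → u t ^ 4 = H a (x t) - e := by
        intro t ht
        rw [show u t ^ 4 = (u t ^ 2) ^ 2 by ring, hu]
        simp only
        rw [Real.sq_sqrt (Real.sqrt_nonneg _), Real.sq_sqrt (hfpos t ht).le]
      have hu3 : ∀ t, T0 ≤ t → u t ^ 3 ≤ c * Real.sqrt (G2 a (x t)) := by
        intro t ht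
        have h1 := hf3 t ht
        rw [← hu4 t ht, ← hc4] at h1
        have h2 : Real.sqrt (G2 a (x t)) ^ 4 = G2 a (x t) ^ 2 := by
          rw [show Real.sqrt (G2 a (x t)) ^ 4 = (Real.sqrt (G2 a (x t)) ^ 2) ^ 2 by ring,
            Real.sq_sqrt (G2_nonneg _ _)]
        apply le_of_pow_le_pow_left₀ (n := 4) (by norm_num) (by positivity)
        calc (u t ^ 3) ^ 4 = (u t ^ 4) ^ 3 := by ring
          _ ≤ c ^ 4 * G2 a (x t) ^ 2 := h1
          _ = (c * Real.sqrt (G2 a (x t))) ^ 4 := by rw [mul_pow, h2]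
      have hu' : ∀ t, T0 ≤ t → HasDerivWithinAt u (-(G2 a (x t)) / (4 * u t ^ 3)) (Ici T0) t := by
        intro t ht
        have h1 : HasDerivWithinAt (fun s => H a (x s) - e) (-(G2 a (x t))) (Ici T0) t :=
          ((t_DEC' ha hx (hT0.trans ht)).mono (Ici_subset_Ici.2 hT0)).sub_const e
        have h2 := (h1.sqrt (hfpos t ht).ne').sqrt (Real.sqrt_pos.2 (hfpos t ht)).ne'
        convert! h2 using 1
        have h3 : Real.sqrt (H a (x t) - e) = u t ^ 2 := by
          rw [hu]; simp only
          rw [Real.sq_sqrt (Real.sqrt_nonneg _)]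
        have h4 : Real.sqrt (Real.sqrt (H a (x t) - e)) = u t := rfl
        rw [h4, h3]
        have := (hupos t ht).ne'
        field_simp
        ring
      have hle : ∀ t, T0 ≤ t → Real.sqrt (G2 a (x t)) + 4 * c * (-(G2 a (x t)) / (4 * u t ^ 3)) ≤ 0 := by
        intro t ht
        have h1 := hu3 t ht
        have h2 : 0 < u t ^ 3 := pow_pos (hupos t ht) 3
        have h3 : Real.sqrt (G2 a (x t)) ^ 2 = G2 a (x t) := Real.sq_sqrt (G2_nonneg _ _)
        have h4 : 0 ≤ Real.sqrt (G2 a (x t)) := Real.sqrt_nonneg _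
        have h5 : 4 * c * (-(G2 a (x t)) / (4 * u t ^ 3)) = -(c * G2 a (x t) / u t ^ 3) := by
          field_simp
        rw [h5]
        have h6 : Real.sqrt (G2 a (x t)) ≤ c * G2 a (x t) / u t ^ 3 := by
          rw [le_div_iff₀ h2]
          calc Real.sqrt (G2 a (x t)) * u t ^ 3 ≤
              Real.sqrt (G2 a (x t)) * (c * Real.sqrt (G2 a (x t))) := mul_le_mul_of_nonneg_left h1 h4
            _ = c * Real.sqrt (G2 a (x t)) ^ 2 := by ring
            _ = _ := by rw [h3]
        linarith
      have hu0 : Tendsto u atTop (𝓝 0) := by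
        have h1 : Tendsto (fun t => H a (x t) - e) atTop (𝓝 0) := by
          simpa using he.sub_const e
        have h2 := ((Real.continuous_sqrt.comp Real.continuous_sqrt).tendsto 0).comp h1
        simpa [Function.comp_def, hu] using h2
      apply conv_of_bound (T := T0) (v := fun t => 4 * c * u t)
      · simpa using hu0.const_mul (4 * c)
      · intro t ht
        have := hupos t ht
        positivity
      · intro t s ht hts i
        have hd : ∀ w, T0 ≤ w → HasDerivWithinAt (fun s => x s i) (F a (x w) i) (Ici T0) w :=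
          fun w hw => (hx w (hT0.trans hw) i).mono (Ici_subset_Ici.2 hT0)
        have a1 := anti_of_deriv (f := fun s => x s i + 4 * c * u s)
          (fun w hw => (hd w hw).add ((hu' w hw).const_mul (4 * c)))
          (fun w hw => by
            have h1 := hle w (le_of_lt hw)
            have h2 := (le_abs_self _).trans (F_le a (x w) i)
            linarith) ht hts
        have a2 := anti_of_deriv (f := fun s => -x s i + 4 * c * u s)
          (fun w hw => (hd w hw).neg.add ((hu' w hw).const_mul (4 * c)))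
          (fun w hw => by
            have h1 := hle w (le_of_lt hw)
            have h2 := (neg_abs_le _).trans' (neg_le_neg (F_le a (x w) i))
            linarith) ht hts
        have h3 := hupos s (ht.trans hts)
        have h4 : 0 < 4 * c * u s := by positivity
        rw [abs_le]
        constructor <;> linarith
  obtain ⟨p, hp⟩ := hconv
  refine ⟨p, ?_, hp⟩
  have hcG : Continuous (G2 a) := by
    unfold G2 F
    fun_prop
  have h1 : Tendsto (fun t => G2 a (x t)) atTop (𝓝 (G2 a p)) := (hcG.tendsto p).comp hp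
  have h2 : G2 a p = 0 := tendsto_nhds_unique h1 hG
  funext i
  have h3 := F_le a p i
  rw [h2, Real.sqrt_zero] at h3
  exact abs_eq_zero.1 (le_antisymm h3 (abs_nonneg _))

end Pool.Agent.Q77.KU.PC
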