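import Pool.Agent.Q77.KU.Stm

/-!
# Kuramoto on the clique with pendant vertices: formulas, KL, STR
-/

set_option autoImplicit false

namespace Pool.Agent.Q77.KU.PK

open Filter Topology Set MeasureTheory Pool.Agent.Q77.KU

variable {n l : ℕ}

theorem cor_nn (i j : Fin n) : cor n l (i, none) (j, none) = if i = j then 0 else 1 := by
  unfold cor
  by_cases h : i = j
  · simp [h]
  · simp [h]

theorem cor_ns (i j : Fin n) (m : Fin l) : cor n l (i, none) (j, some m) = if i = j then 1 else 0 := by
  unfold cor
  by_cases h : i = j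
  · simp [h]
  · simp [h]

theorem cor_sn (i j : Fin n) (m : Fin l) : cor n l (i, some m) (j, none) = if i = j then 1 else 0 := by
  unfold cor
  by_cases h : i = j
  · simp [h]
  · simp [h]

theorem cor_ss (i j : Fin n) (m m' : Fin l) : cor n l (i, some m) (j, some m') = 0 := by
  unfold cor
  by_cases h : i = j
  · simp [h]
  · simp [h]

/-- sums over neighbours of a leaf -/
theorem sum_leaf (i : Fin n) (m : Fin l) (f : Fin n × Option (Fin l) → ℝ) :
    ∑ v, cor n l (i, some m) v * f v = f (i, none) := by
  rw [Fintype.sum_prod_type]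
  simp only [Fintype.sum_option, cor_sn, cor_ss, zero_mul, Finset.sum_const_zero, add_zero]
  simp

/-- sums over neighbours of a vertex of the clique -/
theorem sum_core (i : Fin n) (f : Fin n × Option (Fin l) → ℝ) :
    ∑ v, cor n l (i, none) v * f v = ∑ j, (if i = j then 0 else f (j, none)) + ∑ m, f (i, some m) := by
  rw [Fintype.sum_prod_type]
  simp only [Fintype.sum_option, cor_nn, cor_ns]
  rw [Finset.sum_add_distrib]
  congr 1
  · apply Finset.sum_congr rfl
    intro j _
    by_cases h : i = j
    · simp [h]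
    · simp [h]
  · rw [Finset.sum_comm]
    apply Finset.sum_congr rfl
    intro m _
    simp

theorem F_leaf (x : Fin n × Option (Fin l) → ℝ) (i : Fin n) (m : Fin l) :
    F (cor n l) x (i, some m) = Real.sin (x (i, none) - x (i, some m)) := by
  unfold F
  rw [sum_leaf i m (fun v => Real.sin (x v - x (i, some m)))]

/-- torque in the clique -/
noncomputable def T (x : Fin n × Option (Fin l) → ℝ) (i : Fin n) : ℝ :=
  ∑ j, Real.sin (x (j, none) - x (i, none))

/-- alignment in the clique -/
noncomputable def P (x : Fin n × Option (Fin l) → ℝ) (i : Fin n) : ℝ :=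
  ∑ j, Real.cos (x (j, none) - x (i, none))

theorem F_core (x : Fin n × Option (Fin l) → ℝ) (i : Fin n) :
    F (cor n l) x (i, none) = T x i + ∑ m, Real.sin (x (i, some m) - x (i, none)) := by
  unfold F T
  rw [sum_core i (fun v => Real.sin (x v - x (i, none)))]
  congr 1
  apply Finset.sum_congr rfl
  intro j _
  by_cases h : i = j
  · simp [h]
  · simp [h]

theorem T_eq (x : Fin n × Option (Fin l) → ℝ) (i : Fin n) :
    T x i = F (cor n l) x (i, none) + ∑ m, F (cor n l) x (i, some m) := by
  rw [F_core]
  have : ∑ m, F (cor n l) x (i, some m) = -∑ m, Real.sin (x (i, some m) - x (i, none)) := by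
    rw [← Finset.sum_neg_distrib]
    apply Finset.sum_congr rfl
    intro m _
    rw [F_leaf, ← Real.sin_neg, neg_sub]
  rw [this]
  ring

/-- components of the order parameter -/
noncomputable def X (x : Fin n × Option (Fin l) → ℝ) : ℝ := ∑ j, Real.cos (x (j, none))
noncomputable def Y (x : Fin n × Option (Fin l) → ℝ) : ℝ := ∑ j, Real.sin (x (j, none))

theorem T_XY (x : Fin n × Option (Fin l) → ℝ) (i : Fin n) :
    T x i = Real.cos (x (i, none)) * Y x - Real.sin (x (i, none)) * X x := by
  unfold T X Y
  rw [Finset.mul_sum, Finset.mul_sum, ← Finset.sum_sub_distrib]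
  apply Finset.sum_congr rfl
  intro j _
  rw [Real.sin_sub]
  ring

theorem P_XY (x : Fin n × Option (Fin l) → ℝ) (i : Fin n) :
    P x i = Real.cos (x (i, none)) * X x + Real.sin (x (i, none)) * Y x := by
  unfold P X Y
  rw [Finset.mul_sum, Finset.mul_sum, ← Finset.sum_add_distrib]
  apply Finset.sum_congr rfl
  intro j _
  rw [Real.cos_sub]
  ring

theorem P_T (x : Fin n × Option (Fin l) → ℝ) (i : Fin n) :
    P x i ^ 2 + T x i ^ 2 = X x ^ 2 + Y x ^ 2 := by
  rw [P_XY, T_XY]
  have := Real.sin_sq_add_cos_sq (x (i, none))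
  calc _ = (Real.sin (x (i, none)) ^ 2 + Real.cos (x (i, none)) ^ 2) * (X x ^ 2 + Y x ^ 2) := by ring
    _ = _ := by rw [this, one_mul]

theorem sum_P (x : Fin n × Option (Fin l) → ℝ) : ∑ i, P x i = X x ^ 2 + Y x ^ 2 := by
  simp only [P_XY]
  rw [Finset.sum_add_distrib, ← Finset.sum_mul, ← Finset.sum_mul, sq, sq]
  rfl

end Pool.Agent.Q77.KU.PK
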