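import Pool.Agent.Q77.KU.Stm

set_option autoImplicit false

namespace Pool.Agent.Q77.KU.PX

open Filter Topology Set MeasureTheory Pool.Agent.Q77.KU

theorem cos_tangent {s q : ℝ} (hs0 : 0 ≤ s) (hs : s ≤ Real.pi / 2) (hq0 : 0 ≤ q)
    (hq : q ≤ Real.pi / 2) : Real.cos s ≤ Real.cos q - Real.sin q * (s - q) := by
  have hd : ∀ u : ℝ, HasDerivAt (fun u => Real.cos u + Real.sin q * u) (-Real.sin u + Real.sin q) u :=
    fun u => by
      have h1 : HasDerivAt (fun u : ℝ => Real.sin q * u) (Real.sin q) u := by
        simpa using (hasDerivAt_id u).const_mul (Real.sin q)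
      exact (Real.hasDerivAt_cos u).add h1
  have hc : Continuous (fun u => Real.cos u + Real.sin q * u) := by fun_prop
  have key : Real.cos s + Real.sin q * s ≤ Real.cos q + Real.sin q * q := by
    rcases le_total q s with h | h
    · have : AntitoneOn (fun u => Real.cos u + Real.sin q * u) (Icc q (Real.pi / 2)) := by
        apply antitoneOn_of_deriv_nonpos (convex_Icc _ _) hc.continuousOn
        · intro u _
          exact (hd u).differentiableAt.differentiableWithinAt
        · rw [interior_Icc]
          intro u hu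
          rw [(hd u).deriv]
          have := Real.sin_le_sin_of_le_of_le_pi_div_two (by linarith [Real.pi_pos]) hu.2.le hu.1.le
          linarith
      exact this ⟨le_rfl, hq⟩ ⟨h, hs⟩ h
    · have : MonotoneOn (fun u => Real.cos u + Real.sin q * u) (Icc 0 q) := by
        apply monotoneOn_of_deriv_nonneg (convex_Icc _ _) hc.continuousOn
        · intro u _
          exact (hd u).differentiableAt.differentiableWithinAt
        · rw [interior_Icc]
          intro u hu
          rw [(hd u).deriv]
          have := Real.sin_le_sin_of_le_of_le_pi_div_two (by linarith [Real.pi_pos, hu.1]) hq hu.2.le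
          linarith
      exact this ⟨hs0, h⟩ ⟨hq0, le_rfl⟩ h
  linarith

theorem sinA : Real.sin (Real.arcsin (1 / 4)) = 1 / 4 :=
  Real.sin_arcsin (by norm_num) (by norm_num)

theorem A_lo : 1 / 5 < Real.arcsin (1 / 4) := by
  by_contra h
  push Not at h
  have h1 : Real.sin (Real.arcsin (1 / 4)) ≤ Real.sin (1 / 5) :=
    Real.sin_le_sin_of_le_of_le_pi_div_two (Real.neg_pi_div_two_le_arcsin _)
      (by linarith [Real.pi_gt_three]) h
  rw [sinA] at h1
  have := Real.sin_lt (x := 1 / 5) (by norm_num)
  linarith

theorem A_hi : Real.arcsin (1 / 4) < 3 / 8 := by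
  by_contra h
  push Not at h
  have h1 : Real.sin (3 / 8) ≤ Real.sin (Real.arcsin (1 / 4)) :=
    Real.sin_le_sin_of_le_of_le_pi_div_two (by linarith [Real.pi_gt_three])
      (Real.arcsin_le_pi_div_two _) h
  rw [sinA] at h1
  have := Real.sin_gt_sub_cube (x := 3 / 8) (by norm_num)
  norm_num at this
  linarith

theorem sin4A : 12 * Real.sin (4 * Real.arcsin (1 / 4)) =
    Real.sin (2 * Real.arcsin (1 / 4)) + 10 * Real.cos (Real.arcsin (1 / 4)) := by
  rw [show 4 * Real.arcsin (1 / 4) = 2 * (2 * Real.arcsin (1 / 4)) by ring, Real.sin_two_mul,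
    Real.sin_two_mul, Real.cos_two_mul']
  have h1 := Real.sin_sq_add_cos_sq (Real.arcsin (1 / 4))
  rw [sinA] at h1 ⊢
  have h2 : Real.cos (Real.arcsin (1 / 4)) ^ 2 = 15 / 16 := by linarith
  rw [h2]
  ring

theorem t_CVX : S_CVX := by
  have hpi := Real.pi_gt_three
  have hA1 := A_lo
  have hA2 := A_hi
  refine ⟨?_, ⟨by linarith, by linarith⟩, ?_⟩
  · intro u hu v hv
    have := cos_tangent (s := u + v) (q := 4 * Real.arcsin (1 / 4)) (by linarith [hu.1, hv.1])
      (by linarith [hu.2, hv.2]) (by linarith) (by linarith)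
    linarith
  · intro u hu hne
    set A := Real.arcsin (1 / 4) with hA
    set f : ℝ → ℝ := fun u => Real.cos u - 20 * Real.sin (u / 2) + 12 * Real.sin (4 * A) * (u - 2 * A)
      with hf
    set f' : ℝ → ℝ := fun u => -Real.sin u - 10 * Real.cos (u / 2) + 12 * Real.sin (4 * A) with hf'
    have hd : ∀ u, HasDerivAt f (f' u) u := by
      intro u
      have h1 : HasDerivAt (fun u : ℝ => Real.sin (u / 2)) (Real.cos (u / 2) * (1 / 2)) u := by
        have := ((hasDerivAt_id u).div_const 2).sin
        simpa using this
      have h2 : HasDerivAt (fun u : ℝ => 12 * Real.sin (4 * A) * (u - 2 * A)) (12 * Real.sin (4 * A)) u := by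
        have := ((hasDerivAt_id u).sub_const (2 * A)).const_mul (12 * Real.sin (4 * A))
        simpa using this
      have h3 := ((Real.hasDerivAt_cos u).sub (h1.const_mul 20)).add h2
      convert! h3 using 1
      simp only [hf']
      ring
    have hd' : ∀ u, HasDerivAt f' (-Real.cos u + 5 * Real.sin (u / 2)) u := by
      intro u
      have h1 : HasDerivAt (fun u : ℝ => Real.cos (u / 2)) (-Real.sin (u / 2) * (1 / 2)) u := by
        have := ((hasDerivAt_id u).div_const 2).cos
        simpa using this
      have h3 := ((Real.hasDerivAt_sin u).neg.sub (h1.const_mul 10)).add_const (12 * Real.sin (4 * A))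
      convert! h3 using 1
      ring
    have hfA : f' (2 * A) = 0 := by
      simp only [hf']
      rw [show 2 * A / 2 = A by ring, sin4A]
      ring
    have hc' : Continuous f' := continuous_iff_continuousAt.2 fun u => (hd' u).continuousAt
    have hc : Continuous f := continuous_iff_continuousAt.2 fun u => (hd u).continuousAt
    have hmono' : StrictMonoOn f' (Icc (2 / 5) (3 / 4)) := by
      apply strictMonoOn_of_deriv_pos (convex_Icc _ _) hc'.continuousOn
      rw [interior_Icc]
      intro u hu
      rw [(hd' u).deriv]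
      have h1 : Real.sin (1 / 5) ≤ Real.sin (u / 2) :=
        Real.sin_le_sin_of_le_of_le_pi_div_two (by linarith) (by linarith [hu.2]) (by linarith [hu.1])
      have h2 := Real.sin_gt_sub_cube (x := 1 / 5) (by norm_num)
      have h3 : Real.cos u ≤ Real.cos (2 / 5) :=
        Real.cos_le_cos_of_nonneg_of_le_pi (by norm_num) (by linarith [hu.2]) hu.1.le
      have h4 : Real.cos (2 / 5) = 1 - 2 * Real.sin (1 / 5) ^ 2 := by
        rw [show (2 / 5 : ℝ) = 2 * (1 / 5) by norm_num, Real.cos_two_mul']
        have := Real.sin_sq_add_cos_sq (1 / 5)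
        linarith
      norm_num at h2
      have h5 : (99 / 500 : ℝ) ≤ Real.sin (1 / 5) := by linarith
      nlinarith
    have hAm : 2 * A ∈ Icc (2 / 5 : ℝ) (3 / 4) := ⟨by linarith, by linarith⟩
    have key : f (2 * A) < f u := by
      rcases lt_or_gt_of_ne hne with h | h
      · have hanti : StrictAntiOn f (Icc (2 / 5) (2 * A)) := by
          apply strictAntiOn_of_deriv_neg (convex_Icc _ _) hc.continuousOn
          rw [interior_Icc]
          intro w hw
          rw [(hd w).deriv, ← hfA]
          exact hmono' ⟨hw.1.le, by linarith [hw.2]⟩ hAm hw.2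
        exact hanti ⟨hu.1, h.le⟩ ⟨hAm.1, le_rfl⟩ h
      · have hmono : StrictMonoOn f (Icc (2 * A) (3 / 4)) := by
          apply strictMonoOn_of_deriv_pos (convex_Icc _ _) hc.continuousOn
          rw [interior_Icc]
          intro w hw
          rw [(hd w).deriv, ← hfA]
          exact hmono' hAm ⟨by linarith [hw.1], hw.2.le⟩ hw.1
        exact hmono ⟨le_rfl, hAm.2⟩ ⟨h.le, hu.2⟩ h
    simp only [hf] at key
    rw [show 2 * A / 2 = A by ring, sub_self, mul_zero, add_zero] at key
    linarith

end Pool.Agent.Q77.KU.PX
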