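import Mathlib

/-!
# The homogeneous Kuramoto model: definitions for MP_d89e95_an
-/

set_option autoImplicit false

namespace Pool.Agent.Q77.KU

open Filter Topology Set MeasureTheory

variable {V : Type} [Fintype V]

/-- right-hand side of the Kuramoto model with coupling strengths `a` -/
noncomputable def F (a : V → V → ℝ) (x : V → ℝ) : V → ℝ :=
  fun i => ∑ j, a i j * Real.sin (x j - x i)

/-- energy -/
noncomputable def H (a : V → V → ℝ) (x : V → ℝ) : ℝ :=
  -(1 / 2) * ∑ i, ∑ j, a i j * Real.cos (x i - x j)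

/-- squared speed -/
noncomputable def G2 (a : V → V → ℝ) (x : V → ℝ) : ℝ := ∑ i, F a x i ^ 2

/-- solutions on `[0, ∞)` -/
def Sol (a : V → V → ℝ) (x : ℝ → V → ℝ) : Prop :=
  ∀ t, 0 ≤ t → ∀ i, HasDerivWithinAt (fun s => x s i) (F a (x t) i) (Ici 0) t

/-- second derivative of the energy in direction `w` -/
noncomputable def HH (a : V → V → ℝ) (p w : V → ℝ) : ℝ :=
  1 / 2 * ∑ i, ∑ j, a i j * Real.cos (p i - p j) * (w i - w j) ^ 2

end Pool.Agent.Q77.KU
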