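import Pool.Agent.Q77.KU.Stm

set_option autoImplicit false

namespace Pool.Agent.Q77.KU.PG

open Filter Topology Set MeasureTheory Pool.Agent.Q77.KU

/-- symmetry of the linearisation -/
theorem lin_symm {V : Type} [Fintype V] {a : V → V → ℝ} (ha : ∀ i j, a i j = a j i) (p v w : V → ℝ) :
    ∑ i, v i * Lin a p w i = ∑ i, w i * Lin a p v i := by
  unfold Lin
  have hm : ∀ i j, a i j * Real.cos (p j - p i) = a j i * Real.cos (p i - p j) := by
    intro i j
    rw [ha i j, ← Real.cos_neg (p j - p i), neg_sub]
  have e1 : ∑ i, v i * ∑ j, a i j * Real.cos (p j - p i) * (w j - w i) =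
      ∑ i, ∑ j, a i j * Real.cos (p j - p i) * (v i * w j) -
      ∑ i, ∑ j, a i j * Real.cos (p j - p i) * (v i * w i) := by
    rw [← Finset.sum_sub_distrib]
    apply Finset.sum_congr rfl
    intro i _
    rw [← Finset.sum_sub_distrib, Finset.mul_sum]
    apply Finset.sum_congr rfl
    intro j _
    ring
  have e2 : ∑ i, w i * ∑ j, a i j * Real.cos (p j - p i) * (v j - v i) =
      ∑ i, ∑ j, a i j * Real.cos (p j - p i) * (w i * v j) -
      ∑ i, ∑ j, a i j * Real.cos (p j - p i) * (w i * v i) := by
    rw [← Finset.sum_sub_distrib]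
    apply Finset.sum_congr rfl
    intro i _
    rw [← Finset.sum_sub_distrib, Finset.mul_sum]
    apply Finset.sum_congr rfl
    intro j _
    ring
  rw [e1, e2]
  congr 1
  · rw [Finset.sum_comm]
    apply Finset.sum_congr rfl
    intro i _
    apply Finset.sum_congr rfl
    intro j _
    rw [hm j i]
    ring
  · apply Finset.sum_congr rfl
    intro i _
    apply Finset.sum_congr rfl
    intro j _
    ring

theorem lin_cont {V : Type} [Fintype V] (a : V → V → ℝ) (p : V → ℝ) (i : V) :
    Continuous fun v : V → ℝ => Lin a p v i := by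
  unfold Lin
  fun_prop

theorem t_GROW (h1 : S_LINA) (h2 : S_TAYL) : S_GROW := by
  intro V _ a ha p w _ hw
  obtain ⟨η, hη, γ, hγ, hg, hQw⟩ := h1 V a ha p w hw
  obtain ⟨r, hr, hT⟩ := h2 V a p γ hγ
  set Q : (V → ℝ) → ℝ := fun v => ∑ i, v i * (Lin a p v i - η * v i) with hQ
  have hQc : Continuous Q := by
    have := fun i => lin_cont a p i
    apply continuous_finset_sum
    intro i _
    exact (continuous_apply i).mul ((this i).sub (continuous_const.mul (continuous_apply i)))
  refine ⟨r, hr, Q, hQc, ?_, hQw, ?_⟩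
  · intro s v
    simp only [hQ, Lin, Pi.smul_apply, smul_eq_mul]
    rw [Finset.mul_sum]
    apply Finset.sum_congr rfl
    intro i _
    have : ∑ j, a i j * Real.cos (p j - p i) * (s * v j - s * v i) =
        s * ∑ j, a i j * Real.cos (p j - p i) * (v j - v i) := by
      rw [Finset.mul_sum]
      apply Finset.sum_congr rfl
      intro j _
      ring
    rw [this]
    ring
  · intro x y hx hy hxr hyr
    set d : ℝ → V → ℝ := fun t => x t - y t with hd
    have hdd : ∀ t, 0 ≤ t → ∀ i, HasDerivWithinAt (fun s => d s i)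
        (F a (x t) i - F a (y t) i) (Ici 0) t := fun t ht i => (hx t ht i).sub (hy t ht i)
    -- derivative of `Q (d t)`
    have hQd : ∀ t, 0 ≤ t → HasDerivWithinAt (fun s => Q (d s))
        (2 * ∑ i, (F a (x t) i - F a (y t) i) * (Lin a p (d t) i - η * d t i)) (Ici 0) t := by
      intro t ht
      set e : V → ℝ := fun i => F a (x t) i - F a (y t) i with he
      have hl : ∀ i, HasDerivWithinAt (fun s => Lin a p (d s) i) (Lin a p e i) (Ici 0) t := by
        intro i
        unfold Lin
        apply HasDerivWithinAt.fun_sum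
        intro j _
        exact ((hdd t ht j).sub (hdd t ht i)).const_mul _
      have h3 : HasDerivWithinAt (fun s => Q (d s))
          (∑ i, (e i * (Lin a p (d t) i - η * d t i) + d t i * (Lin a p e i - η * e i)))
          (Ici 0) t := by
        simp only [hQ]
        apply HasDerivWithinAt.fun_sum
        intro i _
        exact (hdd t ht i).mul ((hl i).sub ((hdd t ht i).const_mul η))
      convert! h3 using 1
      rw [Finset.sum_add_distrib, two_mul]
      congr 1
      have h4 := lin_symm ha p (d t) e
      have h5 : ∑ i, d t i * (Lin a p e i - η * e i) = ∑ i, d t i * Lin a p e i - η * ∑ i, d t i * e i := by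
        rw [Finset.mul_sum, ← Finset.sum_sub_distrib]
        apply Finset.sum_congr rfl
        intro i _
        ring
      have h6 : ∑ i, e i * (Lin a p (d t) i - η * d t i) =
          ∑ i, e i * Lin a p (d t) i - η * ∑ i, d t i * e i := by
        rw [Finset.mul_sum, ← Finset.sum_sub_distrib]
        apply Finset.sum_congr rfl
        intro i _
        ring
      rw [h5, h6, h4]
    -- lower bound
    have hlow : ∀ t, 0 ≤ t → 2 * η * Q (d t) ≤
        2 * ∑ i, (F a (x t) i - F a (y t) i) * (Lin a p (d t) i - η * d t i) := by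
      intro t ht
      set B : V → ℝ := fun i => Lin a p (d t) i - η * d t i with hB
      set R : V → ℝ := fun i => F a (x t) i - F a (y t) i - Lin a p (x t - y t) i with hR
      have hR2 : ∑ i, R i ^ 2 ≤ γ ^ 2 * ∑ i, (x t i - y t i) ^ 2 := hT _ _ (hxr t ht) (hyr t ht)
      have hB2 : γ ^ 2 * ∑ i, (x t i - y t i) ^ 2 ≤ ∑ i, B i ^ 2 := hg (d t)
      have hRB : ∑ i, R i ^ 2 ≤ ∑ i, B i ^ 2 := hR2.trans hB2
      have hsum : ∑ i, (F a (x t) i - F a (y t) i) * B i =
          ∑ i, B i ^ 2 + η * Q (d t) + ∑ i, R i * B i := by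
        rw [hQ, Finset.mul_sum, ← Finset.sum_add_distrib, ← Finset.sum_add_distrib]
        apply Finset.sum_congr rfl
        intro i _
        simp only [hR, hB, hd]
        ring
      have hCS : 0 ≤ ∑ i, B i ^ 2 + ∑ i, R i * B i := by
        have h7 : 0 ≤ ∑ i, (B i + R i) ^ 2 := Finset.sum_nonneg fun i _ => sq_nonneg _
        have h8 : ∑ i, (B i + R i) ^ 2 = ∑ i, B i ^ 2 + 2 * ∑ i, R i * B i + ∑ i, R i ^ 2 := by
          rw [Finset.mul_sum, ← Finset.sum_add_distrib, ← Finset.sum_add_distrib]
          apply Finset.sum_congr rfl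
          intro i _
          ring
        linarith
      rw [hsum]
      linarith
    -- monotonicity of `Q (d t) e^{-2 η t}`
    have hmono : MonotoneOn (fun t => Q (d t) * Real.exp (-(2 * η) * t)) (Ici 0) := by
      have hder : ∀ t, 0 ≤ t → HasDerivWithinAt (fun t => Q (d t) * Real.exp (-(2 * η) * t))
          ((2 * ∑ i, (F a (x t) i - F a (y t) i) * (Lin a p (d t) i - η * d t i)) *
            Real.exp (-(2 * η) * t) + Q (d t) * (Real.exp (-(2 * η) * t) * (-(2 * η)))) (Ici 0) t := by
        intro t ht
        have he : HasDerivAt (fun t : ℝ => Real.exp (-(2 * η) * t))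
            (Real.exp (-(2 * η) * t) * (-(2 * η))) t := by
          have := (((hasDerivAt_id t).const_mul (-(2 * η)))).exp
          simpa using this
        exact (hQd t ht).mul he.hasDerivWithinAt
      apply monotoneOn_of_deriv_nonneg (convex_Ici 0)
      · intro t ht
        exact (hder t ht).continuousWithinAt
      · rw [interior_Ici]
        intro t ht
        exact ((hder t (le_of_lt ht)).hasDerivAt (Ici_mem_nhds ht)).differentiableAt.differentiableWithinAt
      · rw [interior_Ici]
        intro t ht
        rw [((hder t (le_of_lt ht)).hasDerivAt (Ici_mem_nhds ht)).deriv]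
        have h9 := hlow t (le_of_lt ht)
        have h10 := Real.exp_pos (-(2 * η) * t)
        nlinarith
    by_contra hpos
    push Not at hpos
    have h0 : 0 < Q (d 0) := hpos
    -- bound of `Q (d t)`
    obtain ⟨M, hM⟩ : ∃ M : ℝ, ∀ t, 0 ≤ t → Q (d t) ≤ M := by
      obtain ⟨M, hM⟩ := ((isCompact_closedBall (0 : V → ℝ) (2 * r)).image hQc).bddAbove
      refine ⟨M, fun t ht => hM ⟨d t, ?_, rfl⟩⟩
      rw [Metric.mem_closedBall, dist_zero_right]
      have : d t = (x t - p) - (y t - p) := by simp [hd]
      rw [this]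
      refine (norm_sub_le _ _).trans ?_
      have e1 := hxr t ht
      have e2 := hyr t ht
      rw [dist_eq_norm] at e1 e2
      linarith
    have hgrow : ∀ t, 0 ≤ t → Q (d 0) * Real.exp (2 * η * t) ≤ M := by
      intro t ht
      have h11 := hmono (mem_Ici.2 le_rfl) (mem_Ici.2 ht) ht
      simp only [mul_zero, Real.exp_zero, mul_one] at h11
      have h12 : Q (d t) * Real.exp (-(2 * η) * t) * Real.exp (2 * η * t) = Q (d t) := by
        rw [mul_assoc, ← Real.exp_add]
        simp
      calc Q (d 0) * Real.exp (2 * η * t) ≤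
          Q (d t) * Real.exp (-(2 * η) * t) * Real.exp (2 * η * t) :=
            mul_le_mul_of_nonneg_right h11 (Real.exp_pos _).le
        _ = Q (d t) := h12
        _ ≤ M := hM t ht
    have hMpos : 0 < M := lt_of_lt_of_le h0 (by simpa using hgrow 0 le_rfl)
    have h13 := hgrow (M / (Q (d 0) * (2 * η))) (by positivity)
    have h14 : 2 * η * (M / (Q (d 0) * (2 * η))) = M / Q (d 0) := by field_simp
    rw [h14] at h13
    have h15 := Real.add_one_le_exp (M / Q (d 0))
    have h16 : Q (d 0) * (M / Q (d 0) + 1) = M + Q (d 0) := by field_simp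
    nlinarith

end Pool.Agent.Q77.KU.PG
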