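import Pool.Agent.Q77.KU.COR
import Pool.Agent.Q77.KU.EXI

set_option autoImplicit false

namespace Pool.Agent.Q77.KU.PK

open Filter Topology Set MeasureTheory Pool.Agent.Q77.KU

variable {n l : ℕ}

theorem H_formula (x : Fin n × Option (Fin l) → ℝ) :
    H (cor n l) x = -(X x ^ 2 + Y x ^ 2 - n) / 2 -
      ∑ i, ∑ m, Real.cos (x (i, none) - x (i, some m)) := by
  unfold H
  rw [Fintype.sum_prod_type]
  simp only [Fintype.sum_option]
  have h1 : ∀ i, ∑ v, cor n l (i, none) v * Real.cos (x (i, none) - x v) =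
      (P x i - 1) + ∑ m, Real.cos (x (i, none) - x (i, some m)) := by
    intro i
    rw [sum_core i (fun v => Real.cos (x (i, none) - x v))]
    congr 1
    unfold P
    have e : ∀ j, (if i = j then (0 : ℝ) else Real.cos (x (i, none) - x (j, none))) =
        Real.cos (x (j, none) - x (i, none)) - (if i = j then 1 else 0) := by
      intro j
      by_cases h : i = j
      · simp [h]
      · rw [if_neg h, if_neg h, ← Real.cos_neg, neg_sub, sub_zero]
    simp only [e]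
    rw [Finset.sum_sub_distrib]
    simp
  have h2 : ∀ i m, ∑ v, cor n l (i, some m) v * Real.cos (x (i, some m) - x v) =
      Real.cos (x (i, none) - x (i, some m)) := by
    intro i m
    rw [sum_leaf i m (fun v => Real.cos (x (i, some m) - x v)), ← Real.cos_neg, neg_sub]
  simp only [h1, h2]
  rw [Finset.sum_add_distrib, Finset.sum_add_distrib, Finset.sum_sub_distrib, sum_P]
  simp
  ring

/-- the case distinction for the clique -/
theorem clique_aux {m : ℕ} (p t : Fin m → ℝ) (R : ℝ) (hR : 0 < R) (hpt : ∀ i, p i ^ 2 + t i ^ 2 = R ^ 2)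
    (hsum : ∑ i, p i = R ^ 2) (hRm : R ≤ m) :
    ∃ ρ : ℤ, |R ^ 2 - (ρ : ℝ) ^ 2| ^ 3 ≤
      (512 * (m : ℝ) ^ 6 + 8 * (m : ℝ) ^ 3 + 1) * (∑ i, t i ^ 2) ^ 2 := by
  set τ := ∑ i, t i ^ 2 with hτ
  have hτ0 : 0 ≤ τ := Finset.sum_nonneg fun i _ => sq_nonneg _
  have hm0 : (0 : ℝ) ≤ m := m.cast_nonneg
  have hti : ∀ i, t i ^ 2 ≤ (m : ℝ) ^ 2 := by
    intro i
    have h1 := hpt i
    have h2 : R ^ 2 ≤ (m : ℝ) ^ 2 := pow_le_pow_left₀ hR.le hRm 2
    nlinarith [sq_nonneg (p i)]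
  have hτm : τ ≤ (m : ℝ) ^ 3 := by
    calc τ ≤ ∑ _i : Fin m, (m : ℝ) ^ 2 := Finset.sum_le_sum fun i _ => hti i
      _ = (m : ℝ) ^ 3 := by
        rw [Finset.sum_const, Finset.card_univ, Fintype.card_fin, nsmul_eq_mul]; ring
  set σ : Fin m → ℤ := fun i => if 0 ≤ p i then 1 else -1 with hσ
  have hσp : ∀ i, |p i - σ i * R| ≤ t i ^ 2 / R := by
    intro i
    have h1 := hpt i
    have h2 : |p i| ≤ R := by
      apply abs_le_of_sq_le_sq _ hR.le
      nlinarith [sq_nonneg (t i)]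
    rw [le_div_iff₀ hR]
    by_cases h : 0 ≤ p i
    · have e : (σ i : ℝ) = 1 := by simp [hσ, h]
      rw [e, one_mul, abs_of_nonpos (by linarith [le_abs_self (p i)])]
      have := le_abs_self (p i)
      nlinarith
    · have e : (σ i : ℝ) = -1 := by simp [hσ, h]
      push Not at h
      rw [e, abs_of_nonneg (by linarith [neg_abs_le (p i)])]
      have := neg_abs_le (p i)
      nlinarith
  set ρ : ℤ := ∑ i, σ i with hρ
  have hρR : |R ^ 2 - ρ * R| ≤ τ / R := by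
    have e : R ^ 2 - ρ * R = ∑ i, (p i - σ i * R) := by
      rw [Finset.sum_sub_distrib, hsum, ← Finset.sum_mul, hρ]
      push_cast
      rfl
    rw [e]
    refine (Finset.abs_sum_le_sum_abs _ _).trans ?_
    refine (Finset.sum_le_sum fun i _ => hσp i).trans (le_of_eq ?_)
    rw [← Finset.sum_div]
  have hρm : (ρ : ℝ) ≤ m := by
    have : (ρ : ℝ) = ∑ i, (σ i : ℝ) := by rw [hρ]; push_cast; rfl
    rw [this]
    calc ∑ i, (σ i : ℝ) ≤ ∑ _i : Fin m, (1 : ℝ) := by
          apply Finset.sum_le_sum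
          intro i _
          simp only [hσ]
          split_ifs <;> norm_num
      _ = m := by simp
  set S := τ / R ^ 2 with hS
  have hS0 : 0 ≤ S := by positivity
  have hRρ : |R - ρ| ≤ S := by
    have h1 : R * |R - ρ| ≤ τ / R := by
      rw [← abs_of_pos hR, ← abs_mul, abs_of_pos hR]
      rw [show R * (R - ρ) = R ^ 2 - ρ * R by ring]
      exact hρR
    rw [hS, le_div_iff₀ (by positivity)]
    rw [le_div_iff₀ hR] at h1
    nlinarith
  have hSτ : S * R ^ 2 = τ := by rw [hS]; field_simp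
  have hC : (0 : ℝ) ≤ 512 * (m : ℝ) ^ 6 + 8 * (m : ℝ) ^ 3 + 1 := by positivity
  by_cases hS2 : S ≤ 1 / 2
  · by_cases hρ1 : 1 ≤ ρ
    · refine ⟨ρ, ?_⟩
      have hρ1' : (1 : ℝ) ≤ ρ := by exact_mod_cast hρ1
      have h1 : 1 / 2 ≤ R := by
        have := (abs_le.1 hRρ).1
        linarith
      have h2 : S ≤ 4 * τ := by
        have h5 : (1 / 4 : ℝ) ≤ R ^ 2 := by nlinarith
        have h6 := mul_le_mul_of_nonneg_left h5 hS0
        linarith
      have h3 : |R ^ 2 - (ρ : ℝ) ^ 2| ≤ 8 * m * τ := by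
        rw [sq_sub_sq, abs_mul, abs_of_nonneg (by linarith : 0 ≤ R + ρ)]
        calc (R + ρ) * |R - ρ| ≤ (2 * m) * (4 * τ) :=
              mul_le_mul (by linarith) (hRρ.trans h2) (abs_nonneg _) (by positivity)
          _ = _ := by ring
      calc |R ^ 2 - (ρ : ℝ) ^ 2| ^ 3 ≤ (8 * m * τ) ^ 3 := pow_le_pow_left₀ (abs_nonneg _) h3 3
        _ = 512 * (m : ℝ) ^ 3 * τ ^ 2 * τ := by ring
        _ ≤ 512 * (m : ℝ) ^ 3 * τ ^ 2 * (m : ℝ) ^ 3 := by gcongr
        _ = 512 * (m : ℝ) ^ 6 * τ ^ 2 := by ring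
        _ ≤ _ := by
          apply mul_le_mul_of_nonneg_right _ (sq_nonneg _)
          have : 0 ≤ 8 * (m : ℝ) ^ 3 := by positivity
          linarith
    · push Not at hρ1
      have hρ0 : ρ = 0 := by
        by_contra hne
        have h1 : ρ ≤ -1 := by omega
        have h2 : (ρ : ℝ) ≤ -1 := by exact_mod_cast h1
        have := (abs_le.1 hRρ).2
        linarith
      refine ⟨0, ?_⟩
      rw [hρ0] at hRρ
      simp only [Int.cast_zero, sub_zero, abs_of_pos hR] at hRρ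
      have h3 : R ^ 3 ≤ τ := by
        rw [← hSτ]
        nlinarith [sq_nonneg R]
      simp only [Int.cast_zero, ne_eq, OfNat.ofNat_ne_zero, not_false_eq_true, zero_pow, sub_zero]
      rw [abs_of_nonneg (sq_nonneg R)]
      calc (R ^ 2) ^ 3 = (R ^ 3) ^ 2 := by ring
        _ ≤ τ ^ 2 := pow_le_pow_left₀ (by positivity) h3 2
        _ ≤ _ := by
          have : 0 ≤ (512 * (m : ℝ) ^ 6 + 8 * (m : ℝ) ^ 3) * τ ^ 2 := by positivity
          linarith
  · push Not at hS2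
    refine ⟨0, ?_⟩
    simp only [Int.cast_zero, ne_eq, OfNat.ofNat_ne_zero, not_false_eq_true, zero_pow, sub_zero]
    rw [abs_of_nonneg (sq_nonneg R)]
    have h1 : R ^ 2 ≤ 2 * τ := by
      have : 0 < R ^ 2 := by positivity
      nlinarith
    calc (R ^ 2) ^ 3 ≤ (2 * τ) ^ 3 := pow_le_pow_left₀ (sq_nonneg _) h1 3
      _ = 8 * τ ^ 2 * τ := by ring
      _ ≤ 8 * τ ^ 2 * (m : ℝ) ^ 3 := by gcongr
      _ ≤ _ := by
        have : 0 ≤ (512 * (m : ℝ) ^ 6 + 1) * τ ^ 2 := by positivity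
        linarith

theorem clique_kl (x : Fin n × Option (Fin l) → ℝ) :
    ∃ ρ : ℤ, |X x ^ 2 + Y x ^ 2 - (ρ : ℝ) ^ 2| ^ 3 ≤
      (512 * (n : ℝ) ^ 6 + 8 * (n : ℝ) ^ 3 + 1) * (∑ i, T x i ^ 2) ^ 2 := by
  set R2 := X x ^ 2 + Y x ^ 2 with hR2
  have hR20 : 0 ≤ R2 := by positivity
  rcases hR20.eq_or_lt with h | h
  · refine ⟨0, ?_⟩
    rw [← h]
    simp
    positivity
  · have hR : 0 < Real.sqrt R2 := Real.sqrt_pos.2 h
    have hsq : Real.sqrt R2 ^ 2 = R2 := Real.sq_sqrt hR20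
    have hRn : Real.sqrt R2 ≤ n := by
      rw [Real.sqrt_le_iff]
      refine ⟨n.cast_nonneg, ?_⟩
      have h1 := sum_P x
      rw [← hR2] at h1
      have h2 : ∀ i, P x i ≤ n := by
        intro i
        unfold P
        calc ∑ j, Real.cos (x (j, none) - x (i, none)) ≤ ∑ _j : Fin n, (1 : ℝ) :=
              Finset.sum_le_sum fun j _ => Real.cos_le_one _
          _ = n := by simp
      calc R2 = ∑ i, P x i := h1.symm
        _ ≤ ∑ _i : Fin n, (n : ℝ) := Finset.sum_le_sum fun i _ => h2 i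
        _ = (n : ℝ) ^ 2 := by
          rw [Finset.sum_const, Finset.card_univ, Fintype.card_fin, nsmul_eq_mul]; ring
    obtain ⟨ρ, hρ⟩ := clique_aux (P x) (T x) (Real.sqrt R2) hR
      (fun i => by rw [P_T, hsq]) (by rw [sum_P, hsq]) hRn
    rw [hsq] at hρ
    exact ⟨ρ, hρ⟩

theorem t_KL : S_KL := by
  intro n l
  set K : ℝ := ∑ i, ∑ j, |cor n l i j| with hK
  have hK0 : 0 ≤ K :=
    Finset.sum_nonneg fun i _ => Finset.sum_nonneg fun j _ => abs_nonneg _
  set N : ℝ := (Fintype.card (Fin n × Option (Fin l)) : ℝ) with hN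
  have hN0 : 0 ≤ N := by positivity
  set C1 : ℝ := 512 * (n : ℝ) ^ 6 + 8 * (n : ℝ) ^ 3 + 1 with hC1
  have hC10 : 0 ≤ C1 := by positivity
  refine ⟨4 * (1 / 8 * C1 * ((l : ℝ) + 1) ^ 2 + N * K ^ 2), fun x => ?_⟩
  obtain ⟨ρ, hρ⟩ := clique_kl x
  set R2 := X x ^ 2 + Y x ^ 2 with hR2
  set τ := ∑ i, T x i ^ 2 with hτ
  have hτ0 : 0 ≤ τ := Finset.sum_nonneg fun i _ => sq_nonneg _
  set g := G2 (cor n l) x with hg
  have hg0 : 0 ≤ g := Finset.sum_nonneg fun i _ => sq_nonneg _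
  have hgK : g ≤ N * K ^ 2 := by
    have h1 : ∀ v, F (cor n l) x v ^ 2 ≤ K ^ 2 := by
      intro v
      rw [← sq_abs, ← Real.norm_eq_abs]
      exact pow_le_pow_left₀ (norm_nonneg _)
        ((norm_le_pi_norm (F (cor n l) x) v).trans (PE.F_bd (cor n l) x)) 2
    refine (Finset.sum_le_sum fun v _ => h1 v).trans (le_of_eq ?_)
    rw [Finset.sum_const, Finset.card_univ, nsmul_eq_mul]
  have hgs : g = ∑ i, ∑ o, F (cor n l) x (i, o) ^ 2 := by
    rw [hg]; unfold G2; rw [Fintype.sum_prod_type]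
  have hτg : τ ≤ ((l : ℝ) + 1) * g := by
    rw [hgs, Finset.mul_sum]
    apply Finset.sum_le_sum
    intro i _
    have h1 : T x i = ∑ o, F (cor n l) x (i, o) := by rw [T_eq, Fintype.sum_option]
    rw [h1]
    have h2 := sq_sum_le_card_mul_sum_sq (s := (Finset.univ : Finset (Option (Fin l))))
      (f := fun o => F (cor n l) x (i, o))
    rw [Finset.card_univ, Fintype.card_option, Fintype.card_fin] at h2
    push_cast at h2
    exact h2
  set ε : Fin n → Fin l → ℤ := fun i m => if 0 ≤ Real.cos (x (i, none) - x (i, some m)) then 1 else -1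
    with hε
  have hεc : ∀ i m, |(ε i m : ℝ) - Real.cos (x (i, none) - x (i, some m))| ≤
      F (cor n l) x (i, some m) ^ 2 := by
    intro i m
    rw [F_leaf]
    have h1 := Real.sin_sq_add_cos_sq (x (i, none) - x (i, some m))
    have h2 := Real.cos_le_one (x (i, none) - x (i, some m))
    have h3 := Real.neg_one_le_cos (x (i, none) - x (i, some m))
    by_cases h : 0 ≤ Real.cos (x (i, none) - x (i, some m))
    · have e : (ε i m : ℝ) = 1 := by simp [hε, h]
      rw [e, abs_of_nonneg (by linarith)]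
      nlinarith
    · have e : (ε i m : ℝ) = -1 := by simp [hε, h]
      push Not at h
      rw [e, abs_of_nonpos (by linarith)]
      nlinarith
  refine ⟨-(ρ ^ 2 - n) - 2 * ∑ i, ∑ m, ε i m, ?_⟩
  have hdiff : H (cor n l) x - ((-(ρ ^ 2 - n) - 2 * ∑ i, ∑ m, ε i m : ℤ) : ℝ) / 2 =
      -(1 / 2) * (R2 - (ρ : ℝ) ^ 2) +
        ∑ i, ∑ m, ((ε i m : ℝ) - Real.cos (x (i, none) - x (i, some m))) := by
    rw [H_formula]
    push_cast
    simp only [Finset.sum_sub_distrib]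
    rw [← hR2]
    ring
  have hsumle : |∑ i, ∑ m, ((ε i m : ℝ) - Real.cos (x (i, none) - x (i, some m)))| ≤ g := by
    refine (Finset.abs_sum_le_sum_abs _ _).trans ?_
    rw [hgs]
    apply Finset.sum_le_sum
    intro i _
    refine (Finset.abs_sum_le_sum_abs _ _).trans ?_
    rw [Fintype.sum_option]
    have h1 : ∑ m, |(ε i m : ℝ) - Real.cos (x (i, none) - x (i, some m))| ≤
        ∑ m, F (cor n l) x (i, some m) ^ 2 := Finset.sum_le_sum fun m _ => hεc i m
    have h2 := sq_nonneg (F (cor n l) x (i, none))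
    linarith
  rw [hdiff]
  set A := |R2 - (ρ : ℝ) ^ 2| with hA
  have hA0 : 0 ≤ A := abs_nonneg _
  have h4 : |-(1 / 2) * (R2 - (ρ : ℝ) ^ 2) +
        ∑ i, ∑ m, ((ε i m : ℝ) - Real.cos (x (i, none) - x (i, some m)))| ≤ 1 / 2 * A + g := by
    refine (abs_add_le _ _).trans ?_
    rw [abs_mul, abs_neg, abs_of_pos (by norm_num : (0 : ℝ) < 1 / 2)]
    linarith
  calc _ ≤ (1 / 2 * A + g) ^ 3 := pow_le_pow_left₀ (abs_nonneg _) h4 3
    _ ≤ 4 * ((1 / 2 * A) ^ 3 + g ^ 3) := by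
      have ha : 0 ≤ 1 / 2 * A := by positivity
      nlinarith [mul_nonneg (add_nonneg ha hg0) (sq_nonneg (1 / 2 * A - g))]
    _ = 4 * (1 / 8 * A ^ 3 + g * g ^ 2) := by ring
    _ ≤ 4 * (1 / 8 * (C1 * τ ^ 2) + (N * K ^ 2) * g ^ 2) := by
      gcongr
    _ ≤ 4 * (1 / 8 * (C1 * (((l : ℝ) + 1) * g) ^ 2) + (N * K ^ 2) * g ^ 2) := by
      gcongr
    _ = _ := by ring

end Pool.Agent.Q77.KU.PK
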