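import Pool.Agent.Q77.KU.Stm

set_option autoImplicit false

namespace Pool.Agent.Q77.KU.PL

open Filter Topology Set MeasureTheory Pool.Agent.Q77.KU

/-- `Lin` as a linear map -/
noncomputable def LinL {V : Type} [Fintype V] (a : V → V → ℝ) (p : V → ℝ) :
    Module.End ℝ (V → ℝ) where
  toFun d := Lin a p d
  map_add' d e := by
    funext i
    simp only [Lin, Pi.add_apply]
    rw [← Finset.sum_add_distrib]
    apply Finset.sum_congr rfl
    intro j _
    ring
  map_smul' c d := by
    funext i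
    simp only [Lin, Pi.smul_apply, smul_eq_mul, RingHom.id_apply]
    rw [Finset.mul_sum]
    apply Finset.sum_congr rfl
    intro j _
    ring

theorem lin_quad {V : Type} [Fintype V] {a : V → V → ℝ} (ha : ∀ i j, a i j = a j i) (p w : V → ℝ) :
    ∑ i, w i * Lin a p w i = -HH a p w := by
  have hm : ∀ i j, a i j * Real.cos (p i - p j) = a j i * Real.cos (p j - p i) := by
    intro i j
    rw [ha i j, ← Real.cos_neg (p j - p i), neg_sub]
  have e1 : ∑ i, w i * Lin a p w i =
      ∑ i, ∑ j, a i j * Real.cos (p i - p j) * (w i * (w j - w i)) := by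
    unfold Lin
    apply Finset.sum_congr rfl
    intro i _
    rw [Finset.mul_sum]
    apply Finset.sum_congr rfl
    intro j _
    rw [← Real.cos_neg (p j - p i), neg_sub]
    ring
  have e2 : ∑ i, w i * Lin a p w i =
      ∑ i, ∑ j, a i j * Real.cos (p i - p j) * (w j * (w i - w j)) := by
    rw [e1, Finset.sum_comm]
    apply Finset.sum_congr rfl
    intro i _
    apply Finset.sum_congr rfl
    intro j _
    rw [hm j i]
  have e3 : HH a p w = -(1 / 2) * (∑ i, ∑ j, a i j * Real.cos (p i - p j) * (w i * (w j - w i)) +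
      ∑ i, ∑ j, a i j * Real.cos (p i - p j) * (w j * (w i - w j))) := by
    unfold HH
    rw [← Finset.sum_add_distrib, Finset.mul_sum, Finset.mul_sum]
    apply Finset.sum_congr rfl
    intro i _
    rw [← Finset.sum_add_distrib, Finset.mul_sum, Finset.mul_sum]
    apply Finset.sum_congr rfl
    intro j _
    ring
  rw [e3, ← e1, ← e2]
  ring

theorem t_LINA : S_LINA := by
  intro V _ a ha p w hw
  classical
  have h1 : 0 < ∑ i, w i * Lin a p w i := by rw [lin_quad ha]; linarith
  set q := ∑ i, w i * Lin a p w i with hq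
  set s := ∑ i, w i ^ 2 with hs
  have hs0 : 0 ≤ s := Finset.sum_nonneg fun i _ => sq_nonneg _
  set δ := q / (s + 1) with hδ
  have hδ0 : 0 < δ := by positivity
  have hfin : {μ : ℝ | Module.End.HasEigenvalue (LinL a p) μ}.Finite := Module.End.finite_hasEigenvalue _
  have hinf : (Ioo (0 : ℝ) δ).Infinite := Ioo_infinite hδ0
  obtain ⟨η, hη1, hη2⟩ := (hinf.sdiff hfin).nonempty
  have hinj : LinearMap.ker (LinL a p - η • LinearMap.id) = ⊥ := by
    by_contra hne
    apply hη2
    change Module.End.HasEigenvalue (LinL a p) η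
    rw [Module.End.hasEigenvalue_iff, Module.End.eigenspace_def]
    exact hne
  obtain ⟨K, hK, hanti⟩ := LinearMap.exists_antilipschitzWith _ hinj
  set N : ℝ := (Fintype.card V : ℝ) with hN
  have hN0 : 0 ≤ N := by positivity
  refine ⟨η, hη1.1, Real.sqrt (1 / (N * K ^ 2 + 1)), by positivity, ?_, ?_⟩
  · intro d
    rw [Real.sq_sqrt (by positivity)]
    set B : V → ℝ := fun i => Lin a p d i - η * d i with hB
    have h2 : ‖d‖ ≤ K * ‖B‖ := by
      have := hanti.le_mul_dist d 0
      rw [dist_zero_right, map_zero, dist_zero_right] at this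
      have e : ∀ T : (V → ℝ) →ₗ[ℝ] (V → ℝ), T = LinL a p - η • LinearMap.id → T d = B := by
        intro T hT
        rw [hT]
        funext i
        simp only [LinearMap.sub_apply, LinearMap.smul_apply, LinearMap.id_apply, Pi.sub_apply,
          Pi.smul_apply, smul_eq_mul, hB]
        rfl
      rw [e _ rfl] at this
      exact this
    have h3 : ∀ i, d i ^ 2 ≤ ‖d‖ ^ 2 := by
      intro i
      rw [← sq_abs, ← Real.norm_eq_abs]
      exact pow_le_pow_left₀ (norm_nonneg _) (norm_le_pi_norm d i) 2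
    have h4 : ∑ i, d i ^ 2 ≤ N * ‖d‖ ^ 2 := by
      refine (Finset.sum_le_sum fun i _ => h3 i).trans (le_of_eq ?_)
      rw [Finset.sum_const, Finset.card_univ, nsmul_eq_mul]
    have h5 : ‖B‖ ^ 2 ≤ ∑ i, B i ^ 2 := by
      have h6 : ‖B‖ ≤ Real.sqrt (∑ i, B i ^ 2) := by
        rw [pi_norm_le_iff_of_nonneg (Real.sqrt_nonneg _)]
        intro i
        rw [Real.norm_eq_abs, ← Real.sqrt_sq_eq_abs]
        apply Real.sqrt_le_sqrt
        exact Finset.single_le_sum (f := fun i => B i ^ 2) (fun i _ => sq_nonneg _)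
          (Finset.mem_univ i)
      calc ‖B‖ ^ 2 ≤ Real.sqrt (∑ i, B i ^ 2) ^ 2 := pow_le_pow_left₀ (norm_nonneg _) h6 2
        _ = _ := Real.sq_sqrt (Finset.sum_nonneg fun i _ => sq_nonneg _)
    have h7 : ‖d‖ ^ 2 ≤ K ^ 2 * ‖B‖ ^ 2 := by
      calc ‖d‖ ^ 2 ≤ (K * ‖B‖) ^ 2 := pow_le_pow_left₀ (norm_nonneg _) h2 2
        _ = _ := by ring
    have hB0 : 0 ≤ ∑ i, B i ^ 2 := Finset.sum_nonneg fun i _ => sq_nonneg _
    have h8 : ∑ i, d i ^ 2 ≤ (N * K ^ 2) * ∑ i, B i ^ 2 := by
      calc ∑ i, d i ^ 2 ≤ N * ‖d‖ ^ 2 := h4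
        _ ≤ N * (K ^ 2 * ‖B‖ ^ 2) := mul_le_mul_of_nonneg_left h7 hN0
        _ ≤ N * (K ^ 2 * ∑ i, B i ^ 2) := by gcongr
        _ = _ := by ring
    rw [div_mul_eq_mul_div, one_mul, div_le_iff₀ (by positivity)]
    nlinarith
  · have h9 : ∑ i, w i * (Lin a p w i - η * w i) = q - η * s := by
      rw [hq, hs, Finset.mul_sum, ← Finset.sum_sub_distrib]
      apply Finset.sum_congr rfl
      intro i _
      ring
    rw [h9]
    have h10 : η * s ≤ η * (s + 1) := by nlinarith [hη1.1]
    have h11 : η * (s + 1) < q := by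
      have := hη1.2
      rw [hδ, lt_div_iff₀ (by positivity)] at this
      exact this
    linarith

end Pool.Agent.Q77.KU.PL
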