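import Pool.Agent.Q77.KU.Stm

set_option autoImplicit false

namespace Pool.Agent.Q77.KU.PN

open Filter Topology Set MeasureTheory Pool.Agent.Q77.KU

theorem t_NULL : S_NULL := by
  intro V _ Q hQ hs w hw W hW
  have hcl : ∀ x ∈ closure W, ∀ y ∈ closure W, Q (x - y) ≤ 0 := by
    have h1 : ∀ x ∈ closure W, ∀ y ∈ W, Q (x - y) ≤ 0 := by
      intro x hx y hy
      have hc : Continuous fun x => Q (x - y) := by fun_prop
      exact closure_minimal (fun x hx => hW x hx y hy) (isClosed_le hc continuous_const) hx
    intro x hx y hy
    have hc : Continuous fun y => Q (x - y) := by fun_prop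
    exact closure_minimal (fun y hy => h1 x hx y hy) (isClosed_le hc continuous_const) hy
  apply measure_mono_null subset_closure
  set L : ℝ →ₗ[ℝ] (V → ℝ) := LinearMap.toSpanSingleton ℝ (V → ℝ) w with hL
  have key : ∀ᵐ y ∂(volume : Measure (V → ℝ)), y ∈ (closure W)ᶜ := by
    apply ae_mem_of_ae_add_linearMap_mem L volume volume isClosed_closure.measurableSet.compl
    intro y
    rw [ae_iff]
    apply Set.Subsingleton.measure_zero
    intro s hs1 t ht1
    simp only [mem_compl_iff, not_not, Set.mem_ofPred_eq] at hs1 ht1
    have h3 := hcl _ hs1 _ ht1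
    have e : y + L s - (y + L t) = (s - t) • w := by
      rw [hL]
      simp only [LinearMap.toSpanSingleton_apply]
      module
    rw [e, hs] at h3
    by_contra hne
    have : 0 < (s - t) ^ 2 := by
      have : s - t ≠ 0 := sub_ne_zero.2 hne
      positivity
    nlinarith [mul_pos this hw]
  rw [ae_iff] at key
  simpa using key

end Pool.Agent.Q77.KU.PN
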