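import Pool.Agent.Q77.KU.KL

set_option autoImplicit false

namespace Pool.Agent.Q77.KU.PK

open Filter Topology Set MeasureTheory Pool.Agent.Q77.KU

theorem H_univ {n l : ℕ} (x : Option (Fin n × Option (Fin l)) → ℝ) :
    H (univ n l) x = -(1 / 2) * ∑ i, ∑ j, (if i = j then 0 else
        Real.cos (x (some (i, none)) - x (some (j, none)))) -
      ∑ i, (Real.cos (x (some (i, none)) - x none) +
        ∑ m, (Real.cos (x (some (i, none)) - x (some (i, some m))) +
          Real.cos (x none - x (some (i, some m))))) := by
  have h1 : H (univ n l) x = H (cor n l) (fun w => x (some w)) -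
      ∑ w : Fin n × Option (Fin l), Real.cos (x none - x (some w)) := by
    unfold H
    rw [Fintype.sum_option]
    simp only [Fintype.sum_option, univ, zero_mul, one_mul, zero_add]
    rw [Finset.sum_add_distrib]
    have e : ∑ w : Fin n × Option (Fin l), Real.cos (x (some w) - x none) =
        ∑ w : Fin n × Option (Fin l), Real.cos (x none - x (some w)) := by
      apply Finset.sum_congr rfl
      intro w _
      rw [← Real.cos_neg, neg_sub]
    rw [e]
    ring
  rw [h1, H_formula]
  have h2 : X (fun w => x (some w)) ^ 2 + Y (fun w => x (some w)) ^ 2 - (n : ℝ) =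
      ∑ i, ∑ j, (if i = j then 0 else
        Real.cos (x (some (i, none)) - x (some (j, none)))) := by
    rw [← sum_P]
    have e : ∀ i : Fin n, ∑ j, (if i = j then (0 : ℝ) else
        Real.cos (x (some (i, none)) - x (some (j, none)))) =
        P (fun w => x (some w)) i - 1 := by
      intro i
      unfold P
      have e2 : ∀ j, (if i = j then (0 : ℝ) else Real.cos (x (some (i, none)) - x (some (j, none)))) =
          Real.cos (x (some (j, none)) - x (some (i, none))) - (if i = j then 1 else 0) := by
        intro j
        by_cases h : i = j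
        · simp [h]
        · rw [if_neg h, if_neg h, ← Real.cos_neg, neg_sub, sub_zero]
      simp only [e2]
      rw [Finset.sum_sub_distrib]
      simp
    simp only [e]
    rw [Finset.sum_sub_distrib]
    simp
  rw [h2, Fintype.sum_prod_type]
  simp only [Fintype.sum_option, Finset.sum_add_distrib]
  have e3 : ∑ i : Fin n, Real.cos (x (some (i, none)) - x none) =
      ∑ i : Fin n, Real.cos (x none - x (some (i, none))) := by
    apply Finset.sum_congr rfl
    intro w _
    rw [← Real.cos_neg, neg_sub]
  rw [e3]
  ring

theorem sg_cases (i : Fin 24) : sg i = 1 ∨ sg i = -1 := by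
  unfold sg
  split_ifs
  · exact Or.inl rfl
  · exact Or.inr rfl

theorem sg_sq (i : Fin 24) : sg i * sg i = 1 := by
  rcases sg_cases i with h | h <;> rw [h] <;> norm_num

theorem dis_eq (x : Option (Fin 24 × Option (Fin 10)) → ℝ) (i : Fin 24) :
    x (some (i, none)) - x none = Real.pi + sg i * dis x i := by
  have : dis x i = sg i * (x (some (i, none)) - x none - Real.pi) := rfl
  rw [this, ← mul_assoc, sg_sq]
  ring

theorem cos_sg (i : Fin 24) (u : ℝ) : Real.cos (sg i * u) = Real.cos u := by
  rcases sg_cases i with h | h <;> rw [h] <;> simp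

theorem half_cos (i : Fin 24) (u : ℝ) :
    Real.cos ((Real.pi + sg i * u) / 2) = -(sg i * Real.sin (u / 2)) := by
  rw [show (Real.pi + sg i * u) / 2 = sg i * (u / 2) + Real.pi / 2 by ring, Real.cos_add_pi_div_two]
  rcases sg_cases i with h | h <;> rw [h] <;> simp

theorem t_RED : S_RED := by
  constructor
  · intro x hx
    rw [H_univ]
    unfold Phi
    have h1 : ∀ i j : Fin 24, Real.cos (sg i * dis x i - sg j * dis x j) =
        Real.cos (x (some (i, none)) - x (some (j, none))) := by
      intro i j
      congr 1
      linarith [dis_eq x i, dis_eq x j]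
    simp only [h1]
    have h2 : ∀ i : Fin 24, Real.cos (x (some (i, none)) - x none) = -Real.cos (dis x i) := by
      intro i
      rw [dis_eq, add_comm, Real.cos_add_pi, cos_sg]
    have h3 : ∀ (i : Fin 24) (m : Fin 10), Real.cos (x (some (i, none)) - x (some (i, some m))) +
        Real.cos (x none - x (some (i, some m))) ≤ 2 * Real.sin (dis x i / 2) := by
      intro i m
      rw [Real.cos_add_cos]
      have e1 : (x (some (i, none)) - x (some (i, some m)) - (x none - x (some (i, some m)))) / 2 =
          (Real.pi + sg i * dis x i) / 2 := by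
        rw [← dis_eq]
        ring
      rw [e1, half_cos]
      have h4 : 0 ≤ Real.sin (dis x i / 2) :=
        Real.sin_nonneg_of_nonneg_of_le_pi (by linarith [(hx i).1])
          (by linarith [(hx i).2, Real.pi_pos])
      set c := Real.cos ((x (some (i, none)) - x (some (i, some m)) +
        (x none - x (some (i, some m)))) / 2) with hc
      have h5 : -1 ≤ c := Real.neg_one_le_cos _
      have h6 : c ≤ 1 := Real.cos_le_one _
      rcases sg_cases i with h | h <;> rw [h]
      · nlinarith
      · nlinarith
    have h7 : ∀ i : Fin 24, Real.cos (x (some (i, none)) - x none) +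
        ∑ m : Fin 10, (Real.cos (x (some (i, none)) - x (some (i, some m))) +
          Real.cos (x none - x (some (i, some m)))) ≤
        -(Real.cos (dis x i) - 20 * Real.sin (dis x i / 2)) := by
      intro i
      rw [h2]
      have h8 := Finset.sum_le_sum (s := Finset.univ) fun m (_ : m ∈ (Finset.univ : Finset (Fin 10))) =>
        h3 i m
      rw [Finset.sum_const, Finset.card_univ, Fintype.card_fin, nsmul_eq_mul] at h8
      push_cast at h8
      linarith
    have h9 := Finset.sum_le_sum (s := Finset.univ) fun i (_ : i ∈ (Finset.univ : Finset (Fin 24))) =>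
      h7 i
    rw [Finset.sum_neg_distrib] at h9
    linarith
  · intro u
    set x : Option (Fin 24 × Option (Fin 10)) → ℝ := fun w => match w with
      | none => 0
      | some (i, none) => Real.pi + sg i * u i
      | some (i, some _) => (Real.pi + sg i * u i) / 2 + (if i.1 < 12 then Real.pi else 0) with hx
    have hx0 : x none = 0 := rfl
    have hx1 : ∀ i, x (some (i, none)) = Real.pi + sg i * u i := fun i => rfl
    have hx2 : ∀ i m, x (some (i, some m)) =
      (Real.pi + sg i * u i) / 2 + (if i.1 < 12 then Real.pi else 0) := fun i m => rfl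
    have hdis : dis x = u := by
      funext i
      have : dis x i = sg i * (x (some (i, none)) - x none - Real.pi) := rfl
      rw [this, hx0, hx1]
      rw [show sg i * (Real.pi + sg i * u i - 0 - Real.pi) = (sg i * sg i) * u i by ring, sg_sq, one_mul]
    refine ⟨x, hdis, ?_⟩
    rw [H_univ]
    unfold Phi
    have h1 : ∀ i j : Fin 24, Real.cos (x (some (i, none)) - x (some (j, none))) =
        Real.cos (sg i * u i - sg j * u j) := by
      intro i j
      rw [hx1, hx1]
      congr 1
      ring
    simp only [h1]
    have h2 : ∀ i : Fin 24, Real.cos (x (some (i, none)) - x none) = -Real.cos (u i) := by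
      intro i
      rw [hx1, hx0, sub_zero, add_comm, Real.cos_add_pi, cos_sg]
    have h3 : ∀ (i : Fin 24) (m : Fin 10), Real.cos (x (some (i, none)) - x (some (i, some m))) +
        Real.cos (x none - x (some (i, some m))) = 2 * Real.sin (u i / 2) := by
      intro i m
      rw [Real.cos_add_cos]
      have e1 : (x (some (i, none)) - x (some (i, some m)) - (x none - x (some (i, some m)))) / 2 =
          (Real.pi + sg i * u i) / 2 := by
        rw [hx1, hx0]
        ring
      have e2 : (x (some (i, none)) - x (some (i, some m)) + (x none - x (some (i, some m)))) / 2 =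
          -(if i.1 < 12 then Real.pi else 0) := by
        rw [hx1, hx0, hx2 i m]
        ring
      rw [e1, e2, half_cos]
      unfold sg
      split_ifs
      · rw [Real.cos_neg, Real.cos_pi]; ring
      · rw [neg_zero, Real.cos_zero]; ring
    have h5 : ∀ i : Fin 24, ∑ m : Fin 10, (Real.cos (x (some (i, none)) - x (some (i, some m))) +
        Real.cos (x none - x (some (i, some m)))) = ((10 : ℕ) : ℝ) * (2 * Real.sin (u i / 2)) := by
      intro i
      rw [Finset.sum_congr rfl fun m _ => h3 i m, Finset.sum_const, Finset.card_univ,
        Fintype.card_fin, nsmul_eq_mul]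
    simp only [h2, h5]
    have h4 : ∀ i : Fin 24, -Real.cos (u i) + ((10 : ℕ) : ℝ) * (2 * Real.sin (u i / 2)) =
        -(Real.cos (u i) - 20 * Real.sin (u i / 2)) := by
      intro i
      push_cast
      ring
    simp only [h4]
    rw [Finset.sum_neg_distrib]
    ring

end Pool.Agent.Q77.KU.PK
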