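import Pool.Agent.Q77.KU.COR
import Pool.Agent.Q77.KU.LINA

set_option autoImplicit false

namespace Pool.Agent.Q77.KU.PK

open Filter Topology Set MeasureTheory Pool.Agent.Q77.KU

variable {n l : ℕ}

theorem cor_symm (u v : Fin n × Option (Fin l)) : cor n l u v = cor n l v u := by
  obtain ⟨i, a⟩ := u
  obtain ⟨j, b⟩ := v
  cases a <;> cases b
  · rw [cor_nn, cor_nn]; simp only [eq_comm]
  · rw [cor_ns, cor_sn]; simp only [eq_comm]
  · rw [cor_sn, cor_ns]; simp only [eq_comm]
  · rw [cor_ss, cor_ss]

theorem lin_leaf (p w : Fin n × Option (Fin l) → ℝ) (i : Fin n) (m : Fin l) :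
    Lin (cor n l) p w (i, some m) =
      Real.cos (p (i, none) - p (i, some m)) * (w (i, none) - w (i, some m)) := by
  unfold Lin
  simp only [mul_assoc]
  rw [sum_leaf i m (fun v => Real.cos (p v - p (i, some m)) * (w v - w (i, some m)))]

theorem lin_core (p w : Fin n × Option (Fin l) → ℝ) (i : Fin n) :
    Lin (cor n l) p w (i, none) =
      ∑ j, Real.cos (p (j, none) - p (i, none)) * (w (j, none) - w (i, none)) +
      ∑ m, Real.cos (p (i, some m) - p (i, none)) * (w (i, some m) - w (i, none)) := by
  unfold Lin
  simp only [mul_assoc]
  rw [sum_core i (fun v => Real.cos (p v - p (i, none)) * (w v - w (i, none)))]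
  congr 1
  apply Finset.sum_congr rfl
  intro j _
  by_cases h : i = j
  · simp [h]
  · simp [h]

theorem t_STR : S_STR := by
  classical
  intro n l p hp hne
  by_cases h1 : ∃ i m, Real.cos (p (i, none) - p (i, some m)) < 0
  · obtain ⟨i, m, h1⟩ := h1
    refine ⟨fun v => if v = (i, some m) then 1 else 0, ?_⟩
    have hq := PL.lin_quad (fun u v => cor_symm (n := n) (l := l) u v) p
      (fun v => if v = (i, some m) then 1 else 0)
    have hs : ∑ u, (if u = (i, some m) then (1 : ℝ) else 0) *
        Lin (cor n l) p (fun v => if v = (i, some m) then 1 else 0) u =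
        -Real.cos (p (i, none) - p (i, some m)) := by
      rw [Finset.sum_eq_single (i, some m)]
      · rw [lin_leaf]
        simp
      · intro b _ hb
        simp [hb]
      · intro h
        exact absurd (Finset.mem_univ _) h
    rw [hs] at hq
    linarith
  · push Not at h1
    by_cases h2 : ∃ i, P p i < 1
    · obtain ⟨i, h2⟩ := h2
      refine ⟨fun v => if v.1 = i then 1 else 0, ?_⟩
      have hq := PL.lin_quad (fun u v => cor_symm (n := n) (l := l) u v) p
        (fun v => if v.1 = i then 1 else 0)
      have hs : ∑ u : Fin n × Option (Fin l), (if u.1 = i then (1 : ℝ) else 0) *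
          Lin (cor n l) p (fun v => if v.1 = i then 1 else 0) u = 1 - P p i := by
        rw [Fintype.sum_prod_type]
        rw [Finset.sum_eq_single i]
        · simp only [Fintype.sum_option, if_true, one_mul, lin_leaf, lin_core, sub_self, mul_zero,
            Finset.sum_const_zero, add_zero]
          unfold P
          have e : ∀ j, Real.cos (p (j, none) - p (i, none)) * ((if j = i then (1 : ℝ) else 0) - 1) =
              (if j = i then 1 else 0) - Real.cos (p (j, none) - p (i, none)) := by
            intro j
            by_cases h : j = i
            · simp [h]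
            · simp [h]
          simp only [e]
          rw [Finset.sum_sub_distrib]
          simp
        · intro b _ hb
          simp [hb]
        · intro h
          exact absurd (Finset.mem_univ _) h
      rw [hs] at hq
      linarith
    · push Not at h2
      exfalso
      -- all torques vanish
      have hleaf : ∀ i m, Real.sin (p (i, none) - p (i, some m)) = 0 := by
        intro i m
        have := congrFun hp (i, some m)
        rw [F_leaf] at this
        exact this
      have hT : ∀ i, T p i = 0 := by
        intro i
        rw [T_eq, hp]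
        simp
      have hcosleaf : ∀ i m, Real.cos (p (i, none) - p (i, some m)) = 1 := by
        intro i m
        have a1 := Real.sin_sq_add_cos_sq (p (i, none) - p (i, some m))
        rw [hleaf i m] at a1
        have a2 := h1 i m
        nlinarith
      set R2 := X p ^ 2 + Y p ^ 2 with hR2
      have hP : ∀ i, P p i = Real.sqrt R2 := by
        intro i
        have := P_T p i
        rw [hT i] at this
        rw [hR2, ← this]
        simp only [ne_eq, OfNat.ofNat_ne_zero, not_false_eq_true, zero_pow, add_zero]
        rw [Real.sqrt_sq (by linarith [h2 i])]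
      have hsum := sum_P p
      simp only [hP] at hsum
      rw [Finset.sum_const, Finset.card_univ, Fintype.card_fin, nsmul_eq_mul, ← hR2] at hsum
      obtain ⟨u, v, huv⟩ := hne
      have hRpos : 0 < Real.sqrt R2 := by
        have := h2 u.1
        rw [hP] at this
        linarith
      have hRn : Real.sqrt R2 = n := by
        have h3 : Real.sqrt R2 ^ 2 = R2 := Real.sq_sqrt (by positivity)
        have h4 : Real.sqrt R2 * (Real.sqrt R2 - n) = 0 := by nlinarith
        rcases mul_eq_zero.1 h4 with h | h
        · linarith
        · linarith
      have hcos : ∀ i j, Real.cos (p (j, none) - p (i, none)) = 1 := by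
        intro i j
        have h5 : ∑ j, (1 - Real.cos (p (j, none) - p (i, none))) = 0 := by
          have := hP i
          unfold P at this
          rw [Finset.sum_sub_distrib, this, hRn]
          simp
        have h6 := (Finset.sum_eq_zero_iff_of_nonneg (fun j _ => by
          linarith [Real.cos_le_one (p (j, none) - p (i, none))])).1 h5 j (Finset.mem_univ j)
        linarith
      -- all phases agree modulo `2π`
      have hz : ∀ u : Fin n × Option (Fin l), ∃ k : ℤ, p (u.1, none) - p u = k * (2 * Real.pi) := by
        rintro ⟨i, _ | m⟩
        · exact ⟨0, by simp⟩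
        · obtain ⟨k, hk⟩ := (Real.cos_eq_one_iff _).1 (hcosleaf i m)
          exact ⟨k, hk.symm⟩
      obtain ⟨k1, hk1⟩ := hz u
      obtain ⟨k2, hk2⟩ := hz v
      obtain ⟨k3, hk3⟩ := (Real.cos_eq_one_iff _).1 (hcos u.1 v.1)
      apply huv
      rw [Real.cos_eq_one_iff]
      refine ⟨k2 - k1 - k3, ?_⟩
      push_cast
      linarith

end Pool.Agent.Q77.KU.PK
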