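import Pool.Agent.Q77.KU.Defs

/-!
# The homogeneous Kuramoto model: statements of the lemma jobs
-/

set_option autoImplicit false

namespace Pool.Agent.Q77.KU

open Filter Topology Set MeasureTheory

/-- CONV: if the energy satisfies a Kurdyka-Lojasiewicz inequality with critical values in
`(1/2) ℤ`, then every solution converges to a critical point. -/
def S_CONV : Prop := ∀ (V : Type) [Fintype V] (a : V → V → ℝ), (∀ i j, a i j = a j i) →
  ∀ C : ℝ, (∀ x : V → ℝ, ∃ k : ℤ, |H a x - k / 2| ^ 3 ≤ C * G2 a x ^ 2) →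
  ∀ x : ℝ → V → ℝ, Sol a x → ∃ p : V → ℝ, F a p = 0 ∧ Tendsto x atTop (𝓝 p)

/-- linearisation of `F` at `p` -/
noncomputable def Lin {V : Type} [Fintype V] (a : V → V → ℝ) (p d : V → ℝ) : V → ℝ :=
  fun i => ∑ j, a i j * Real.cos (p j - p i) * (d j - d i)

/-- LINA: linear algebra for GROW. -/
def S_LINA : Prop := ∀ (V : Type) [Fintype V] (a : V → V → ℝ), (∀ i j, a i j = a j i) →
  ∀ p w : V → ℝ, HH a p w < 0 → ∃ η > 0, ∃ γ > 0,
    (∀ d : V → ℝ, γ ^ 2 * ∑ i, d i ^ 2 ≤ ∑ i, (Lin a p d i - η * d i) ^ 2) ∧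
    0 < ∑ i, w i * (Lin a p w i - η * w i)

/-- TAYL: Taylor expansion for GROW. -/
def S_TAYL : Prop := ∀ (V : Type) [Fintype V] (a : V → V → ℝ) (p : V → ℝ), ∀ ε > 0, ∃ r > 0,
  ∀ x y : V → ℝ, dist x p ≤ r → dist y p ≤ r →
    ∑ i, (F a x i - F a y i - Lin a p (x - y) i) ^ 2 ≤ ε ^ 2 * ∑ i, (x i - y i) ^ 2

/-- GROW: local instability near a critical point with a negative direction of the energy. -/
def S_GROW : Prop := ∀ (V : Type) [Fintype V] (a : V → V → ℝ), (∀ i j, a i j = a j i) →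
  ∀ p w : V → ℝ, F a p = 0 → HH a p w < 0 →
  ∃ r > 0, ∃ Q : (V → ℝ) → ℝ, Continuous Q ∧ (∀ (s : ℝ) (v : V → ℝ), Q (s • v) = s ^ 2 * Q v) ∧
    0 < Q w ∧ ∀ x y : ℝ → V → ℝ, Sol a x → Sol a y → (∀ t, 0 ≤ t → dist (x t) p ≤ r) →
      (∀ t, 0 ≤ t → dist (y t) p ≤ r) → Q (x 0 - y 0) ≤ 0

/-- NULL: a set without two points whose difference is in the cone `Q > 0` is a null set. -/
def S_NULL : Prop := ∀ (V : Type) [Fintype V] (Q : (V → ℝ) → ℝ), Continuous Q →
  (∀ (s : ℝ) (v : V → ℝ), Q (s • v) = s ^ 2 * Q v) → ∀ w : V → ℝ, 0 < Q w →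
  ∀ W : Set (V → ℝ), (∀ x ∈ W, ∀ y ∈ W, Q (x - y) ≤ 0) → volume W = 0

/-- BACK: the set of initial values of solutions which are in a null set at time `T` is null. -/
def S_BACK : Prop := ∀ (V : Type) [Fintype V] (a : V → V → ℝ) (W : Set (V → ℝ)), volume W = 0 →
  ∀ T : ℝ, 0 ≤ T → volume {z : V → ℝ | ∃ x : ℝ → V → ℝ, Sol a x ∧ x 0 = z ∧ x T ∈ W} = 0

/-- EXI: global existence. -/
def S_EXI : Prop := ∀ (V : Type) [Fintype V] (a : V → V → ℝ) (z : V → ℝ),
  ∃ x : ℝ → V → ℝ, Sol a x ∧ x 0 = z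

/-- DEC: the energy does not increase along solutions. -/
def S_DEC : Prop := ∀ (V : Type) [Fintype V] (a : V → V → ℝ), (∀ i j, a i j = a j i) →
  ∀ x : ℝ → V → ℝ, Sol a x → AntitoneOn (fun t => H a (x t)) (Ici 0)

/-- adjacency of the clique on `Fin n` with `l` pendant vertices at each vertex: the vertices are
the pairs in `Fin n × Option (Fin l)`, `(i, none)` are the vertices of the clique and
`(i, some j)` are the pendant vertices at `(i, none)`. -/
noncomputable def cor (n l : ℕ) (u v : Fin n × Option (Fin l)) : ℝ :=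
  if u.1 = v.1 then (if (u.2 = none ∧ v.2 ≠ none) ∨ (u.2 ≠ none ∧ v.2 = none) then 1 else 0)
  else (if u.2 = none ∧ v.2 = none then 1 else 0)

/-- KL: the Kurdyka-Lojasiewicz inequality for the clique with pendant vertices. -/
def S_KL : Prop := ∀ n l : ℕ, ∃ C : ℝ, ∀ x : Fin n × Option (Fin l) → ℝ,
  ∃ k : ℤ, |H (cor n l) x - k / 2| ^ 3 ≤ C * G2 (cor n l) x ^ 2

/-- STR: all critical points of the clique with pendant vertices which are not synchronized have
a negative direction of the energy. -/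
def S_STR : Prop := ∀ n l : ℕ, ∀ p : Fin n × Option (Fin l) → ℝ, F (cor n l) p = 0 →
  (∃ u v, Real.cos (p u - p v) ≠ 1) → ∃ w, HH (cor n l) p w < 0

/-- adding a universal vertex `none` -/
noncomputable def univ (n l : ℕ) (u v : Option (Fin n × Option (Fin l))) : ℝ :=
  match u, v with
  | none, none => 0
  | none, some _ => 1
  | some _, none => 1
  | some u, some v => cor n l u v

/-- `n = 24`, `l = 10`: the distance of the vertex `i` of the clique from the antipode of the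
universal vertex, with sign `+` for `i < 12` and `-` for `12 ≤ i`. -/
noncomputable def dis (x : Option (Fin 24 × Option (Fin 10)) → ℝ) (i : Fin 24) : ℝ :=
  (if i.1 < 12 then 1 else -1) * (x (some (i, none)) - x none - Real.pi)

/-- sign of the vertex `i` -/
noncomputable def sg (i : Fin 24) : ℝ := if i.1 < 12 then 1 else -1

/-- reduced energy -/
noncomputable def Phi (u : Fin 24 → ℝ) : ℝ :=
  -(1 / 2) * ∑ i, ∑ j, (if i = j then 0 else Real.cos (sg i * u i - sg j * u j)) +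
    ∑ i, (Real.cos (u i) - 20 * Real.sin (u i / 2))

/-- RED: the reduced energy is the minimum of the energy over the positions of the pendant
vertices. -/
def S_RED : Prop :=
  (∀ x : Option (Fin 24 × Option (Fin 10)) → ℝ, (∀ i, dis x i ∈ Icc (0 : ℝ) Real.pi) →
    Phi (dis x) ≤ H (univ 24 10) x) ∧
  ∀ u : Fin 24 → ℝ, ∃ x : Option (Fin 24 × Option (Fin 10)) → ℝ, dis x = u ∧
    H (univ 24 10) x = Phi u

/-- CVX: tangent line inequalities; `2 * arcsin (1/4)` is the position of the minimum. -/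
def S_CVX : Prop :=
  (∀ u ∈ Icc (2 / 5 : ℝ) (3 / 4), ∀ v ∈ Icc (2 / 5 : ℝ) (3 / 4),
    -Real.cos (u + v) ≥ -Real.cos (4 * Real.arcsin (1 / 4)) +
      Real.sin (4 * Real.arcsin (1 / 4)) * (u + v - 4 * Real.arcsin (1 / 4))) ∧
  (2 * Real.arcsin (1 / 4) ∈ Ioo (2 / 5 : ℝ) (3 / 4)) ∧
  (∀ u ∈ Icc (2 / 5 : ℝ) (3 / 4), u ≠ 2 * Real.arcsin (1 / 4) →
    Real.cos u - 20 * Real.sin (u / 2) > Real.cos (2 * Real.arcsin (1 / 4)) -
      20 * Real.sin (Real.arcsin (1 / 4)) - 12 * Real.sin (4 * Real.arcsin (1 / 4)) *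
        (u - 2 * Real.arcsin (1 / 4)))

/-- TRAP: there is a trap for the graph with the universal vertex. -/
def S_TRAP : Prop := ∃ E : ℝ, (∃ x : Option (Fin 24 × Option (Fin 10)) → ℝ, H (univ 24 10) x < E ∧
    ∀ i, dis x i ∈ Ioo (2 / 5 : ℝ) (3 / 4)) ∧
  ∀ x : Option (Fin 24 × Option (Fin 10)) → ℝ, H (univ 24 10) x < E →
    (∀ i, dis x i ∈ Icc (2 / 5 : ℝ) (3 / 4)) → ∀ i, dis x i ∈ Ioo (2 / 5 : ℝ) (3 / 4)

end Pool.Agent.Q77.KU
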