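import Pool.Agent.Q77.KU.Stm

set_option autoImplicit false

namespace Pool.Agent.Q77.KU.PT

open Filter Topology Set MeasureTheory Pool.Agent.Q77.KU

theorem cos_lip (x y : ℝ) : |Real.cos x - Real.cos y| ≤ |x - y| := by
  have := Real.abs_cos_sub_cos_le x y
  exact this

theorem sin_taylor {s t q R : ℝ} (hs : |s - q| ≤ R) (ht : |t - q| ≤ R) :
    |Real.sin s - Real.sin t - Real.cos q * (s - t)| ≤ R * |s - t| := by
  have h := Convex.norm_image_sub_le_of_norm_hasDerivWithin_le
    (f := fun u => Real.sin u - Real.cos q * u) (f' := fun u => Real.cos u - Real.cos q)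
    (s := Icc (q - R) (q + R)) (x := t) (y := s) (C := R)
    (fun u _ => ((Real.hasDerivAt_sin u).sub
      (by simpa using (hasDerivAt_id u).const_mul (Real.cos q))).hasDerivWithinAt)
    (fun u hu => by
      rw [Real.norm_eq_abs]
      refine (cos_lip u q).trans ?_
      rw [abs_le]
      constructor <;> linarith [hu.1, hu.2])
    (convex_Icc _ _) (by rw [abs_le] at ht; constructor <;> linarith)
    (by rw [abs_le] at hs; constructor <;> linarith)
  rw [Real.norm_eq_abs, Real.norm_eq_abs] at h
  rw [show Real.sin s - Real.sin t - Real.cos q * (s - t) =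
    Real.sin s - Real.cos q * s - (Real.sin t - Real.cos q * t) by ring]
  exact h

theorem t_TAYL : S_TAYL := by
  intro V _ a p ε hε
  set K : ℝ := ∑ i, ∑ j, |a i j| with hK
  have hK0 : 0 ≤ K := Finset.sum_nonneg fun i _ => Finset.sum_nonneg fun j _ => abs_nonneg _
  set N : ℝ := (Fintype.card V : ℝ) with hN
  have hN0 : 0 ≤ N := by positivity
  -- `|component| ≤ 2 r * K * 2 D`, where `D = sqrt (∑ d_i ^ 2)`
  refine ⟨ε / (4 * (K + 1) * (N + 1)), by positivity, ?_⟩
  set r : ℝ := ε / (4 * (K + 1) * (N + 1)) with hr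
  have hr0 : 0 < r := by positivity
  intro x y hx hy
  set D2 : ℝ := ∑ i, (x i - y i) ^ 2 with hD2
  have hD20 : 0 ≤ D2 := Finset.sum_nonneg fun i _ => sq_nonneg _
  have hdi : ∀ i, |x i - y i| ≤ Real.sqrt D2 := by
    intro i
    rw [← Real.sqrt_sq_eq_abs]
    apply Real.sqrt_le_sqrt
    exact Finset.single_le_sum (f := fun i => (x i - y i) ^ 2) (fun i _ => sq_nonneg _)
      (Finset.mem_univ i)
  have hS0 : 0 ≤ Real.sqrt D2 := Real.sqrt_nonneg _
  have hxp : ∀ i, |x i - p i| ≤ r := fun i => by
    rw [← Real.dist_eq]; exact (dist_le_pi_dist x p i).trans hx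
  have hyp : ∀ i, |y i - p i| ≤ r := fun i => by
    rw [← Real.dist_eq]; exact (dist_le_pi_dist y p i).trans hy
  have hcomp : ∀ i, |F a x i - F a y i - Lin a p (x - y) i| ≤ K * (2 * r * (2 * Real.sqrt D2)) := by
    intro i
    unfold F Lin
    rw [← Finset.sum_sub_distrib, ← Finset.sum_sub_distrib]
    refine (Finset.abs_sum_le_sum_abs _ _).trans ?_
    have h1 : ∀ j, |a i j * Real.sin (x j - x i) - a i j * Real.sin (y j - y i) -
        a i j * Real.cos (p j - p i) * ((x - y) j - (x - y) i)| ≤
        |a i j| * (2 * r * (2 * Real.sqrt D2)) := by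
      intro j
      simp only [Pi.sub_apply]
      rw [show a i j * Real.sin (x j - x i) - a i j * Real.sin (y j - y i) -
        a i j * Real.cos (p j - p i) * (x j - y j - (x i - y i)) =
        a i j * (Real.sin (x j - x i) - Real.sin (y j - y i) -
        Real.cos (p j - p i) * ((x j - x i) - (y j - y i))) by ring, abs_mul]
      apply mul_le_mul_of_nonneg_left _ (abs_nonneg _)
      have e1 : |x j - x i - (p j - p i)| ≤ 2 * r := by
        rw [show x j - x i - (p j - p i) = (x j - p j) - (x i - p i) by ring]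
        refine (abs_sub _ _).trans ?_
        linarith [hxp i, hxp j]
      have e2 : |y j - y i - (p j - p i)| ≤ 2 * r := by
        rw [show y j - y i - (p j - p i) = (y j - p j) - (y i - p i) by ring]
        refine (abs_sub _ _).trans ?_
        linarith [hyp i, hyp j]
      refine (sin_taylor e1 e2).trans ?_
      apply mul_le_mul_of_nonneg_left _ (by positivity)
      rw [show x j - x i - (y j - y i) = (x j - y j) - (x i - y i) by ring]
      refine (abs_sub _ _).trans ?_
      linarith [hdi i, hdi j]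
    refine (Finset.sum_le_sum fun j _ => h1 j).trans ?_
    rw [← Finset.sum_mul]
    apply mul_le_mul_of_nonneg_right _ (by positivity)
    exact Finset.single_le_sum (f := fun i => ∑ j, |a i j|)
      (fun i _ => Finset.sum_nonneg fun j _ => abs_nonneg _) (Finset.mem_univ i)
  have hsq : ∀ i, (F a x i - F a y i - Lin a p (x - y) i) ^ 2 ≤ (4 * K * r) ^ 2 * D2 := by
    intro i
    have h1 := hcomp i
    have h2 : (F a x i - F a y i - Lin a p (x - y) i) ^ 2 ≤
        (K * (2 * r * (2 * Real.sqrt D2))) ^ 2 := by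
      rw [← sq_abs]
      exact pow_le_pow_left₀ (abs_nonneg _) h1 2
    refine h2.trans (le_of_eq ?_)
    have h3 : Real.sqrt D2 ^ 2 = D2 := Real.sq_sqrt hD20
    calc (K * (2 * r * (2 * Real.sqrt D2))) ^ 2 = (4 * K * r) ^ 2 * Real.sqrt D2 ^ 2 := by ring
      _ = _ := by rw [h3]
  refine (Finset.sum_le_sum fun i _ => hsq i).trans ?_
  rw [Finset.sum_const, Finset.card_univ, nsmul_eq_mul, ← hN, ← mul_assoc]
  apply mul_le_mul_of_nonneg_right _ hD20
  -- `N * (4 K r)^2 ≤ ε^2`
  have h4 : 4 * K * r ≤ ε / (N + 1) := by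
    rw [hr, le_div_iff₀ (by positivity)]
    rw [show 4 * K * (ε / (4 * (K + 1) * (N + 1))) * (N + 1) = ε * (K / (K + 1)) by
      field_simp]
    have : K / (K + 1) ≤ 1 := by
      rw [div_le_one (by positivity)]; linarith
    nlinarith
  have h5 : (4 * K * r) ^ 2 ≤ (ε / (N + 1)) ^ 2 := pow_le_pow_left₀ (by positivity) h4 2
  calc N * (4 * K * r) ^ 2 ≤ N * (ε / (N + 1)) ^ 2 := mul_le_mul_of_nonneg_left h5 hN0
    _ = ε ^ 2 * (N / (N + 1) ^ 2) := by field_simp
    _ ≤ ε ^ 2 * 1 := by
      apply mul_le_mul_of_nonneg_left _ (by positivity)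
      rw [div_le_one (by positivity)]
      nlinarith
    _ = ε ^ 2 := by ring

end Pool.Agent.Q77.KU.PT
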