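import Pool.Agent.Q77.KU.RED
import Pool.Agent.Q77.KU.CVX

set_option autoImplicit false

namespace Pool.Agent.Q77.KU.PK

open Filter Topology Set MeasureTheory Pool.Agent.Q77.KU

theorem sum_sg : ∑ i, sg i = 0 := by
  simp only [sg, Fin.sum_univ_succ]
  simp [Fin.val_succ]

theorem weight (w : Fin 24 → ℝ) :
    ∑ i, ∑ j, (1 - sg i * sg j) / 2 * (w i + w j) = 24 * ∑ i, w i := by
  have h1 : ∀ i, ∑ j, (1 - sg i * sg j) / 2 = 12 := by
    intro i
    rw [← Finset.sum_div, Finset.sum_sub_distrib, ← Finset.mul_sum, sum_sg]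
    simp
    norm_num
  have h2 : ∑ i, ∑ j, (1 - sg i * sg j) / 2 * w i = 12 * ∑ i, w i := by
    rw [Finset.mul_sum]
    apply Finset.sum_congr rfl
    intro i _
    rw [← Finset.sum_mul, h1]
  have h3 : ∑ i, ∑ j, (1 - sg i * sg j) / 2 * w j = 12 * ∑ i, w i := by
    rw [Finset.sum_comm, ← h2]
    apply Finset.sum_congr rfl
    intro i _
    apply Finset.sum_congr rfl
    intro j _
    rw [mul_comm (sg j)]
  simp only [mul_add, Finset.sum_add_distrib]
  rw [h2, h3]
  ring

/-- the divergence -/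
noncomputable def Dv (u : ℝ) : ℝ :=
  (Real.cos u - 20 * Real.sin (u / 2)) - (Real.cos (2 * Real.arcsin (1 / 4)) -
      20 * Real.sin (Real.arcsin (1 / 4))) + 12 * Real.sin (4 * Real.arcsin (1 / 4)) *
        (u - 2 * Real.arcsin (1 / 4))

theorem Phi_ge (h2 : S_CVX) (u : Fin 24 → ℝ) (hu : ∀ i, u i ∈ Icc (2 / 5 : ℝ) (3 / 4)) :
    Phi (fun _ => 2 * Real.arcsin (1 / 4)) + ∑ i, Dv (u i) ≤ Phi u := by
  set A := Real.arcsin (1 / 4) with hA
  have hpair : ∀ i j : Fin 24, (if i = j then (0 : ℝ) else Real.cos (sg i * u i - sg j * u j)) ≤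
      (if i = j then (0 : ℝ) else Real.cos (sg i * (2 * A) - sg j * (2 * A))) -
        Real.sin (4 * A) * ((1 - sg i * sg j) / 2 * ((u i - 2 * A) + (u j - 2 * A))) := by
    intro i j
    by_cases hij : i = j
    · subst hij
      rw [if_pos rfl, if_pos rfl, sg_sq]
      simp
    · rw [if_neg hij, if_neg hij]
      have hc := h2.1 (u i) (hu i) (u j) (hu j)
      rw [← hA] at hc
      rcases sg_cases i with h | h <;> rcases sg_cases j with h' | h' <;> rw [h, h']
      · have e : Real.cos (1 * (2 * A) - 1 * (2 * A)) = 1 := by simp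
        rw [e]
        have := Real.cos_le_one (1 * u i - 1 * u j)
        linarith
      · have e1 : Real.cos (1 * u i - -1 * u j) = Real.cos (u i + u j) := by congr 1; ring
        have e2 : Real.cos (1 * (2 * A) - -1 * (2 * A)) = Real.cos (4 * A) := by congr 1; ring
        rw [e1, e2]
        linarith
      · have e1 : Real.cos (-1 * u i - 1 * u j) = Real.cos (u i + u j) := by
          rw [← Real.cos_neg]; congr 1; ring
        have e2 : Real.cos (-1 * (2 * A) - 1 * (2 * A)) = Real.cos (4 * A) := by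
          rw [← Real.cos_neg]; congr 1; ring
        rw [e1, e2]
        linarith
      · have e : Real.cos (-1 * (2 * A) - -1 * (2 * A)) = 1 := by simp
        rw [e]
        have := Real.cos_le_one (-1 * u i - -1 * u j)
        linarith
  have hsum : ∑ i, ∑ j, (if i = j then (0 : ℝ) else Real.cos (sg i * u i - sg j * u j)) ≤
      ∑ i, ∑ j, (if i = j then (0 : ℝ) else Real.cos (sg i * (2 * A) - sg j * (2 * A))) -
        Real.sin (4 * A) * (24 * ∑ i, (u i - 2 * A)) := by
    rw [← weight (fun i => u i - 2 * A)]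
    rw [Finset.mul_sum, ← Finset.sum_sub_distrib]
    apply Finset.sum_le_sum
    intro i _
    rw [Finset.mul_sum, ← Finset.sum_sub_distrib]
    apply Finset.sum_le_sum
    intro j _
    exact hpair i j
  have hone : ∑ i, (Real.cos (u i) - 20 * Real.sin (u i / 2)) =
      ∑ _i : Fin 24, (Real.cos (2 * A) - 20 * Real.sin (2 * A / 2)) + ∑ i, Dv (u i) -
        12 * Real.sin (4 * A) * ∑ i, (u i - 2 * A) := by
    rw [Finset.mul_sum, ← Finset.sum_add_distrib, ← Finset.sum_sub_distrib]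
    apply Finset.sum_congr rfl
    intro i _
    unfold Dv
    rw [← hA, show 2 * A / 2 = A by ring]
    ring
  unfold Phi
  rw [hone]
  linarith

theorem Dv_pos (h2 : S_CVX) {u : ℝ} (hu : u ∈ Icc (2 / 5 : ℝ) (3 / 4))
    (hne : u ≠ 2 * Real.arcsin (1 / 4)) : 0 < Dv u := by
  have := h2.2.2 u hu hne
  unfold Dv
  linarith

theorem Dv_nonneg (h2 : S_CVX) {u : ℝ} (hu : u ∈ Icc (2 / 5 : ℝ) (3 / 4)) : 0 ≤ Dv u := by
  by_cases hne : u = 2 * Real.arcsin (1 / 4)
  · rw [hne]
    unfold Dv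
    rw [show 2 * Real.arcsin (1 / 4) / 2 = Real.arcsin (1 / 4) by ring]
    simp
  · exact (Dv_pos h2 hu hne).le

theorem t_TRAP (h1 : S_RED) (h2 : S_CVX) : S_TRAP := by
  set A := Real.arcsin (1 / 4) with hA
  have hmem := h2.2.1
  have hl : (2 / 5 : ℝ) ∈ Icc (2 / 5 : ℝ) (3 / 4) := ⟨le_rfl, by norm_num⟩
  have hr : (3 / 4 : ℝ) ∈ Icc (2 / 5 : ℝ) (3 / 4) := ⟨by norm_num, le_rfl⟩
  have d1 : 0 < Dv (2 / 5) := Dv_pos h2 hl hmem.1.ne
  have d2 : 0 < Dv (3 / 4) := Dv_pos h2 hr hmem.2.ne'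
  refine ⟨Phi (fun _ => 2 * A) + min (Dv (2 / 5)) (Dv (3 / 4)), ?_, ?_⟩
  · obtain ⟨x, hx1, hx2⟩ := h1.2 (fun _ => 2 * A)
    refine ⟨x, ?_, ?_⟩
    · rw [hx2]
      have := lt_min d1 d2
      linarith
    · intro i
      rw [hx1]
      exact hmem
  · intro x hx hbox
    have hpi := Real.pi_gt_three
    have hH := h1.1 x (fun i => ⟨by linarith [(hbox i).1], by linarith [(hbox i).2]⟩)
    have hP := Phi_ge h2 (dis x) hbox
    have hsum : ∀ i, Dv (dis x i) < min (Dv (2 / 5)) (Dv (3 / 4)) := by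
      intro i
      have h3 : Dv (dis x i) ≤ ∑ i, Dv (dis x i) :=
        Finset.single_le_sum (f := fun i => Dv (dis x i)) (fun j _ => Dv_nonneg h2 (hbox j))
          (Finset.mem_univ i)
      linarith
    intro i
    have h4 := hsum i
    refine ⟨lt_of_le_of_ne (hbox i).1 ?_, lt_of_le_of_ne (hbox i).2 ?_⟩
    · intro h
      rw [← h] at h4
      exact absurd (min_le_left _ _) (not_le.2 h4)
    · intro h
      rw [h] at h4
      exact absurd (min_le_right _ _) (not_le.2 h4)

end Pool.Agent.Q77.KU.PK
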